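import Pool.Agent.SSP.TargetsB

/-!
# MP_d74fca_nt, complex multiplication by the Weierstrass function (helper22): definitions, targets
-/

open Polynomial
open scoped UpperHalfPlane

namespace SSW

open SSA SSP

noncomputable section

/-- the modular invariant `j = E₄^3/Δ` -/
def jt (t : ℍ) : ℂ := ModularForm.E₄ t ^ 3 / ModularForm.discriminant t

/-- coefficients of the model `y^2 = x^3 + a x + b`, `x = ℘`, `y = ℘'/2` -/
def aw (L : PeriodPair) : ℂ := -L.g₂ / 4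
def bw (L : PeriodPair) : ℂ := -L.g₃ / 4

/-- the lattice `ℤ t + ℤ` -/
def LL (t : ℍ) : PeriodPair where
  ω₁ := (t : ℂ)
  ω₂ := 1
  indep := by
    rw [LinearIndependent.pair_iff]
    intro x y h
    have h1 := congrArg Complex.im h
    have h2 := congrArg Complex.re h
    simp at h1 h2
    have ht : (t : ℂ).im ≠ 0 := by simpa using t.im_pos.ne'
    have hx : x = 0 := by
      rcases h1 with h1 | h1
      · exact h1
      · exact absurd h1 (by simpa using t.im_pos.ne')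
    subst hx
    simpa using h2

/-- value of a rational function -/
def evr (R : RatFunc ℂ) (x : ℂ) : ℂ := R.num.eval x / R.denom.eval x

/-- `P` represents multiplication by `m` on `ℂ/L` -/
def Rep (L : PeriodPair) (P : MM (aw L) (bw L)) (m : ℂ) : Prop :=
  P ≠ 0 ∧ {z : ℂ | ¬ (z ∉ L.lattice ∧ m * z ∉ L.lattice ∧ (xr P).denom.eval (L.weierstrassP z) ≠ 0 ∧
    (yr P).denom.eval (L.weierstrassP z) ≠ 0 ∧
    L.weierstrassP (m * z) = evr (xr P) (L.weierstrassP z) ∧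
    L.derivWeierstrassP (m * z) = L.derivWeierstrassP z * evr (yr P) (L.weierstrassP z))}.Countable

/-- SND: the second derivative -/
def T_SND : Prop := ∀ (L : PeriodPair) (z : ℂ), z ∉ L.lattice →
  HasDerivAt L.weierstrassP (L.derivWeierstrassP z) z ∧
  HasDerivAt L.derivWeierstrassP (6 * L.weierstrassP z ^ 2 - L.g₂ / 2) z

/-- CTB: countability of fibres -/
def T_CTB : Prop := ∀ (L : PeriodPair),
  (∀ (A : ℂ[X]), A ≠ 0 → {z : ℂ | z ∈ L.lattice ∨ A.eval (L.weierstrassP z) = 0}.Countable) ∧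
  (∀ m : ℂ, m ≠ 0 → ∀ S : Set ℂ, S.Countable → {z : ℂ | m * z ∈ S}.Countable) ∧
  (∀ R S : RatFunc ℂ, {z : ℂ | z ∉ L.lattice ∧ R.denom.eval (L.weierstrassP z) ≠ 0 ∧
    S.denom.eval (L.weierstrassP z) ≠ 0 ∧
    evr R (L.weierstrassP z) ≠ evr S (L.weierstrassP z)}.Countable → R = S) ∧
  {z : ℂ | z ∉ L.lattice ∧ L.derivWeierstrassP z = 0}.Countable

/-- EVR: evaluation of rational functions -/
def T_EVR : Prop :=
  (∀ (R S : RatFunc ℂ) (x : ℂ), R.denom.eval x ≠ 0 → S.denom.eval x ≠ 0 →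
    (R + S).denom.eval x ≠ 0 ∧ evr (R + S) x = evr R x + evr S x ∧
    (R - S).denom.eval x ≠ 0 ∧ evr (R - S) x = evr R x - evr S x ∧
    (R * S).denom.eval x ≠ 0 ∧ evr (R * S) x = evr R x * evr S x) ∧
  (∀ (R S : RatFunc ℂ) (x : ℂ), R.denom.eval x ≠ 0 → S.denom.eval x ≠ 0 → evr S x ≠ 0 →
    (R / S).denom.eval x ≠ 0 ∧ evr (R / S) x = evr R x / evr S x) ∧
  (∀ c x : ℂ, (RatFunc.C c).denom.eval x ≠ 0 ∧ evr (RatFunc.C c) x = c) ∧
  (∀ x : ℂ, (RatFunc.X : RatFunc ℂ).denom.eval x ≠ 0 ∧ evr RatFunc.X x = x) ∧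
  (∀ A B : ℂ[X], ∀ x : ℂ, B.eval x ≠ 0 →
    (algebraMap ℂ[X] (RatFunc ℂ) A / algebraMap ℂ[X] (RatFunc ℂ) B).denom.eval x ≠ 0 ∧
    evr (algebraMap ℂ[X] (RatFunc ℂ) A / algebraMap ℂ[X] (RatFunc ℂ) B) x = A.eval x / B.eval x) ∧
  (∀ (g R : RatFunc ℂ) (x : ℂ), (∀ c, R ≠ RatFunc.C c) → R.denom.eval x ≠ 0 →
    g.denom.eval (evr R x) ≠ 0 →
    (rcomp g R).denom.eval x ≠ 0 ∧ evr (rcomp g R) x = evr g (evr R x)) ∧
  (∀ (R : RatFunc ℂ) (x : ℂ), R.denom.eval x ≠ 0 → (rder R).denom.eval x ≠ 0 ∧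
    HasDerivAt (evr R) (evr (rder R) x) x)

/-- ADD: addition theorem -/
def T_ADD : Prop := ∀ (L : PeriodPair) (u v : ℂ), u ∉ L.lattice → v ∉ L.lattice →
  L.weierstrassP u ≠ L.weierstrassP v → u + v ∉ L.lattice ∧
  L.weierstrassP (u + v) = ((L.derivWeierstrassP u - L.derivWeierstrassP v) /
    (L.weierstrassP u - L.weierstrassP v)) ^ 2 / 4 - L.weierstrassP u - L.weierstrassP v ∧
  L.derivWeierstrassP (u + v) = -((L.derivWeierstrassP u - L.derivWeierstrassP v) /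
    (L.weierstrassP u - L.weierstrassP v) * (L.weierstrassP (u + v) - L.weierstrassP u) +
    L.derivWeierstrassP u)

/-- DUP: duplication -/
def T_DUP : Prop := ∀ (L : PeriodPair) (u : ℂ), u ∉ L.lattice → L.derivWeierstrassP u ≠ 0 →
  u + u ∉ L.lattice ∧
  L.weierstrassP (u + u) = ((6 * L.weierstrassP u ^ 2 - L.g₂ / 2) / L.derivWeierstrassP u) ^ 2 / 4 -
    2 * L.weierstrassP u ∧
  L.derivWeierstrassP (u + u) = -((6 * L.weierstrassP u ^ 2 - L.g₂ / 2) / L.derivWeierstrassP u *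
    (L.weierstrassP (u + u) - L.weierstrassP u) + L.derivWeierstrassP u)

/-- FIB: fibres of `℘` -/
def T_FIB : Prop := ∀ (L : PeriodPair) (z w : ℂ), z ∉ L.lattice → w ∉ L.lattice →
  L.weierstrassP z = L.weierstrassP w → z - w ∈ L.lattice ∨ z + w ∈ L.lattice

/-- EVE: even elliptic functions with poles in the lattice are polynomials in `℘` -/
def T_EVE : Prop := ∀ (L : PeriodPair) (G : ℂ → ℂ), Meromorphic G →
  (∀ z, z ∉ L.lattice → 0 ≤ meromorphicOrderAt G z) →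
  (∀ z, ∀ l ∈ L.lattice, G (z + l) = G z) → (∀ z, G (-z) = G z) →
  ∃ P : ℂ[X], ∀ z, z ∉ L.lattice → ∀ᶠ w in nhdsWithin z {z}ᶜ, G w = P.eval (L.weierstrassP w)

/-- MUL: complex multiplication gives a rational function -/
def T_MUL : Prop := ∀ (L : PeriodPair) (c : ℂ), c ≠ 0 → (∀ l ∈ L.lattice, c * l ∈ L.lattice) →
  ∃ A B : ℂ[X], B ≠ 0 ∧ B.natDegree < A.natDegree ∧ ∀ z, c * z ∉ L.lattice → z ∉ L.lattice ∧
    B.eval (L.weierstrassP z) ≠ 0 ∧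
    L.weierstrassP (c * z) = A.eval (L.weierstrassP z) / B.eval (L.weierstrassP z)

/-- RPB: basic properties of `Rep` -/
def T_RPB : Prop := ∀ (L : PeriodPair), Hyp (aw L) (bw L) →
  Rep L (idM (aw L) (bw L)) 1 ∧
  (∀ (P : MM (aw L) (bw L)) (m : ℂ), Rep L P m → Rep L (-P) (-m) ∧ m ≠ 0 ∧
    (∀ c, xr P ≠ RatFunc.C c) ∧ yr P ≠ 0 ∧ DD P = RatFunc.C m)

/-- RPA: `Rep` and addition -/
def T_RPA : Prop := ∀ (L : PeriodPair), Hyp (aw L) (bw L) →
  (∀ (P Q : MM (aw L) (bw L)) (m n : ℂ), Rep L P m → Rep L Q n → P ≠ Q → P ≠ -Q →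
    Rep L (P + Q) (m + n)) ∧
  (∀ (P : MM (aw L) (bw L)) (m : ℂ), Rep L P m → Rep L (P + P) (m + m)) ∧
  (∀ n : ℕ, 0 < n → Rep L (n • idM (aw L) (bw L)) n)

/-- RPX: `Rep` and composition -/
def T_RPX : Prop := ∀ (L : PeriodPair), Hyp (aw L) (bw L) →
  ∀ (P Q T : MM (aw L) (bw L)) (m n : ℂ), Rep L P m → Rep L Q n → Rep L T (m * n) →
    rcomp (xr P) (xr Q) = xr T

/-- RPE: existence of the point of a complex multiplication -/
def T_RPE : Prop := ∀ (L : PeriodPair), Hyp (aw L) (bw L) → ∀ c : ℂ, c ≠ 0 →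
  (∀ l ∈ L.lattice, c * l ∈ L.lattice) → ∃ α : MM (aw L) (bw L), Rep L α c ∧
    (xr α).denom.natDegree < (xr α).num.natDegree

/-- CMN: complex multiplication on the model of the lattice -/
def T_CMN : Prop := ∀ (L : PeriodPair), Hyp (aw L) (bw L) → ∀ (c : ℂ) (D : ℕ), 0 < D →
  c ^ 2 = -(D : ℂ) → (∀ l ∈ L.lattice, c * l ∈ L.lattice) → ∃ α : MM (aw L) (bw L),
    DD α = RatFunc.C c ∧ (xr α).denom.natDegree < (xr α).num.natDegree ∧
    ∀ x : ℕ, rcomp (xr (x • idM (aw L) (bw L) + α)) (xr (x • idM (aw L) (bw L) - α)) =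
      xr ((x ^ 2 + D) • idM (aw L) (bw L))

/-- SCL: scaling of the model -/
def T_SCL : Prop := ∀ (k : Type) [Field k] (a b v : k), Hyp a b → v ≠ 0 →
  ∀ (c : k) (D : ℕ) (α : MM a b), DD α = RatFunc.C c →
  (xr α).denom.natDegree < (xr α).num.natDegree →
  (∀ x : ℕ, rcomp (xr (x • idM a b + α)) (xr (x • idM a b - α)) = xr ((x ^ 2 + D) • idM a b)) →
  ∃ α' : MM (v ^ 2 * a) (v ^ 3 * b), DD α' = RatFunc.C c ∧
    (xr α').denom.natDegree < (xr α').num.natDegree ∧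
    ∀ x : ℕ, rcomp (xr (x • idM (v ^ 2 * a) (v ^ 3 * b) + α'))
      (xr (x • idM (v ^ 2 * a) (v ^ 3 * b) - α')) = xr ((x ^ 2 + D) • idM (v ^ 2 * a) (v ^ 3 * b))

/-- LNK: lattice invariants and Eisenstein series -/
def T_LNK : Prop := ∀ t : ℍ,
  (LL t).g₂ = 4 * (Real.pi : ℂ) ^ 4 / 3 * ModularForm.E₄ t ∧
  (LL t).g₃ = 8 * (Real.pi : ℂ) ^ 6 / 27 * ModularForm.E₆ t

/-- RIG: the invariants determine the lattice -/
def T_RIG : Prop := ∀ L L' : PeriodPair, L.g₂ = L'.g₂ → L.g₃ = L'.g₃ → L.lattice = L'.lattice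

/-- INJ: `j` determines the point modulo `SL(2,ℤ)` -/
def T_INJ : Prop := ∀ t t' : ℍ, jt t = jt t' →
  ∃ γ : Matrix.SpecialLinearGroup (Fin 2) ℤ, γ • t = t'

/-- NRM: normal form of the model -/
def T_NRM : Prop := ∀ t : ℍ, Hyp (aw (LL t)) (bw (LL t)) ∧ (jt t ≠ 0 → jt t ≠ 1728 →
  ∃ v : ℂ, v ≠ 0 ∧ aj (jt t) = v ^ 2 * aw (LL t) ∧ bj (jt t) = v ^ 3 * bw (LL t))

/-- CMC: complex multiplication in terms of `j` -/
def T_CMC : Prop := ∀ (t : ℍ) (D : ℕ) (al be ga : ℤ), 0 < D → al * ga - be ^ 2 = D →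
  (al : ℂ) * (t : ℂ) ^ 2 + 2 * be * t + ga = 0 → jt t ≠ 0 → jt t ≠ 1728 → CME ℂ (jt t) D

end

end SSW
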