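import Pool.Agent.SSW.Targets

/-!
# ADD: the addition theorem (helper74)
-/

open Set Filter Topology

namespace SSW

namespace ADD_

variable (L : PeriodPair)

lemma countable_lattice : (L.lattice : Set ℂ).Countable := by
  have : Countable L.lattice := L.latticeEquivProd.toEquiv.countable_iff.mpr inferInstance
  exact Set.countable_coe_iff.mp this

/-- the set of good `w` -/
def V (s : ℂ) : Set ℂ := {w | w ∉ L.lattice ∧ s - w ∉ L.lattice}

lemma isOpen_V (s : ℂ) : IsOpen (V L s) := by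
  have h1 : IsOpen ((L.lattice : Set ℂ)ᶜ) := L.isClosed_lattice.isOpen_compl
  exact h1.inter (h1.preimage (f := fun w : ℂ => s - w) (by fun_prop))

lemma isPreconnected_V (s : ℂ) : IsPreconnected (V L s) := by
  have hc : ((L.lattice : Set ℂ) ∪ (fun w => s - w) ⁻¹' (L.lattice : Set ℂ)).Countable := by
    refine (countable_lattice L).union ?_
    exact (countable_lattice L).preimage_of_injOn (by intro a _ b _ h; simpa using h)
  have := (hc.isConnected_compl_of_one_lt_rank (E := ℂ) (by simp)).isPreconnected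
  convert this using 1
  ext w
  simp [V]

lemma notMem_add {u v : ℂ}
    (h : L.weierstrassP u ≠ L.weierstrassP v) : u + v ∉ L.lattice := by
  intro hs
  apply h
  have h1 : u = -v + (⟨u + v, hs⟩ : L.lattice) := by simp
  rw [h1, L.weierstrassP_add_coe, L.weierstrassP_neg]

/-- polynomial version of the addition theorem -/
noncomputable def HH (s w : ℂ) : ℂ :=
  (L.derivWeierstrassP (s - w) - L.derivWeierstrassP w) ^ 2 -
    4 * (L.weierstrassP (s - w) + L.weierstrassP w + L.weierstrassP s) *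
      (L.weierstrassP (s - w) - L.weierstrassP w) ^ 2

noncomputable def hh (s w : ℂ) : ℂ :=
  ((L.derivWeierstrassP (s - w) - L.derivWeierstrassP w) /
    (L.weierstrassP (s - w) - L.weierstrassP w)) ^ 2 / 4 - L.weierstrassP (s - w) - L.weierstrassP w

lemma analytic_HH (s : ℂ) : AnalyticOnNhd ℂ (HH L s) (V L s) := by
  intro w hw
  have h1 : AnalyticAt ℂ L.weierstrassP w := L.analyticOnNhd_weierstrassP w hw.1
  have h2 : AnalyticAt ℂ L.derivWeierstrassP w := L.analyticOnNhd_derivWeierstrassP w hw.1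
  have h3 : AnalyticAt ℂ (fun w => L.weierstrassP (s - w)) w :=
    (L.analyticOnNhd_weierstrassP (s - w) hw.2).fun_comp (by fun_prop)
  have h4 : AnalyticAt ℂ (fun w => L.derivWeierstrassP (s - w)) w :=
    (L.analyticOnNhd_derivWeierstrassP (s - w) hw.2).fun_comp (by fun_prop)
  unfold HH
  fun_prop

lemma alg1 (x1 y1 x2 y2 a b : ℂ) (e1 : y2 ^ 2 = 4 * x2 ^ 3 - a * x2 - b)
    (e2 : y1 ^ 2 = 4 * x1 ^ 3 - a * x1 - b) (hx : x1 - x2 ≠ 0) :
    ((2 : ℕ) : ℂ) * ((y1 - y2) / (x1 - x2)) ^ (2 - 1) *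
      ((((6 * x1 ^ 2 - a / 2) * -1 - (6 * x2 ^ 2 - a / 2)) * (x1 - x2) -
        (y1 - y2) * (y1 * -1 - y2)) / (x1 - x2) ^ 2) / 4 - y1 * -1 - y2 = 0 := by
  have hN : ((6 * x1 ^ 2 - a / 2) * -1 - (6 * x2 ^ 2 - a / 2)) * (x1 - x2) -
        (y1 - y2) * (y1 * -1 - y2) = -2 * (x1 - x2) ^ 3 := by
    linear_combination e2 - e1
  rw [hN]
  norm_num
  field_simp
  ring

lemma alg2 (x1 y1 x2 y2 a b : ℂ) (e1 : y1 ^ 2 = 4 * x1 ^ 3 - a * x1 - b)
    (e2 : y2 ^ 2 = 4 * x2 ^ 3 - a * x2 - b) (hx : x1 - x2 ≠ 0) :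
    ((2 : ℕ) : ℂ) * ((y1 - y2) / (x1 - x2)) ^ (2 - 1) *
      (((6 * x1 ^ 2 - a / 2) * (x1 - x2) - (y1 - y2) * y1) / (x1 - x2) ^ 2) / 4 - y1 =
    -((y1 - y2) / (x1 - x2) * (((y1 - y2) / (x1 - x2)) ^ 2 / 4 - x1 - x2 - x1) + y1) := by
  have hN : (6 * x1 ^ 2 - a / 2) * (x1 - x2) - (y1 - y2) * y1 =
      2 * (2 * x1 + x2) * (x1 - x2) ^ 2 - (y1 - y2) ^ 2 / 2 := by
    linear_combination (-1/2) * e1 + (1/2) * e2
  rw [hN]
  norm_num
  field_simp
  ring

lemma hasDerivAt_hh (hS : T_SND) (s w : ℂ) (hw : w ∈ V L s)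
    (hne : L.weierstrassP (s - w) ≠ L.weierstrassP w) : HasDerivAt (hh L s) 0 w := by
  have hsub : HasDerivAt (fun w : ℂ => s - w) (-1) w := by
    simpa using (hasDerivAt_id w).const_sub s
  have d1 : HasDerivAt (fun w => L.weierstrassP (s - w)) (L.derivWeierstrassP (s - w) * (-1)) w :=
    (hS L (s - w) hw.2).1.comp w hsub
  have d2 : HasDerivAt (fun w => L.derivWeierstrassP (s - w))
      ((6 * L.weierstrassP (s - w) ^ 2 - L.g₂ / 2) * (-1)) w :=
    (hS L (s - w) hw.2).2.comp w hsub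
  have d3 := (hS L w hw.1).1
  have d4 := (hS L w hw.1).2
  have hx : L.weierstrassP (s - w) - L.weierstrassP w ≠ 0 := sub_ne_zero.mpr hne
  have key := ((((d2.sub d4).div (d1.sub d3) hx).pow 2).div_const 4).sub d1 |>.sub d3
  refine (key.congr_deriv ?_)
  exact alg1 _ _ _ _ _ _ (L.derivWeierstrassP_sq w hw.1) (L.derivWeierstrassP_sq (s - w) hw.2) hx

/-- the continuous extension of `hh` to `0` -/
noncomputable def RR (s w : ℂ) : ℂ :=
  (w * (L.derivWeierstrassP (s - w) - L.derivWeierstrassPExcept 0 w) +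
    w ^ 4 * (L.derivWeierstrassP (s - w) - L.derivWeierstrassPExcept 0 w) ^ 2 / 4 +
    2 * (L.weierstrassP (s - w) - L.weierstrassPExcept 0 w) -
    w ^ 2 * (L.weierstrassP (s - w) - L.weierstrassPExcept 0 w) ^ 2) /
      (1 - w ^ 2 * (L.weierstrassP (s - w) - L.weierstrassPExcept 0 w)) ^ 2 -
    L.weierstrassP (s - w) - L.weierstrassPExcept 0 w

lemma continuousAt_RR (s : ℂ) (hs : s ∉ L.lattice) : ContinuousAt (RR L s) 0 := by
  have h1 : ContinuousAt (L.weierstrassPExcept 0) 0 := (L.analyticAt_weierstrassPExcept 0).continuousAt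
  have h2 : ContinuousAt (L.derivWeierstrassPExcept 0) 0 :=
    (L.analyticAt_derivWeierstrassPExcept 0).continuousAt
  have h3 : ContinuousAt (fun w => L.weierstrassP (s - w)) 0 := by
    have := (L.analyticOnNhd_weierstrassP s hs).continuousAt
    refine ContinuousAt.comp (g := L.weierstrassP) (f := fun w => s - w) (by simpa using this) (by fun_prop)
  have h4 : ContinuousAt (fun w => L.derivWeierstrassP (s - w)) 0 := by
    have := (L.analyticOnNhd_derivWeierstrassP s hs).continuousAt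
    refine ContinuousAt.comp (g := L.derivWeierstrassP) (f := fun w => s - w) (by simpa using this) (by fun_prop)
  unfold RR
  have h5 : ContinuousAt (fun w : ℂ =>
      (1 - w ^ 2 * (L.weierstrassP (s - w) - L.weierstrassPExcept 0 w)) ^ 2) 0 := by fun_prop
  refine ContinuousAt.sub (ContinuousAt.sub (ContinuousAt.div (by fun_prop) h5 (by simp)) h3) h1

lemma RR_zero (s : ℂ) : RR L s 0 = L.weierstrassP s := by
  unfold RR
  simp
  ring

lemma eventually_ne (s : ℂ) (hs : s ∉ L.lattice) :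
    ∀ᶠ w in 𝓝[≠] (0:ℂ), w ∈ V L s ∧ L.weierstrassP (s - w) ≠ L.weierstrassP w ∧
      hh L s w = RR L s w := by
  have h0 : ∀ᶠ w in 𝓝 (0:ℂ), w ∈ ((L.lattice : Set ℂ) \ {0})ᶜ :=
    L.compl_lattice_sdiff_singleton_mem_nhds 0
  have h1 : ∀ᶠ w in 𝓝 (0:ℂ), s - w ∉ L.lattice := by
    have : IsOpen {w : ℂ | s - w ∉ L.lattice} :=
      (L.isClosed_lattice.isOpen_compl).preimage (f := fun w : ℂ => s - w) (by fun_prop)
    exact this.mem_nhds (by simpa using hs)
  have c1 : ContinuousAt (L.weierstrassPExcept 0) 0 := (L.analyticAt_weierstrassPExcept 0).continuousAt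
  have c3 : ContinuousAt (fun w => L.weierstrassP (s - w)) 0 := by
    have := (L.analyticOnNhd_weierstrassP s hs).continuousAt
    refine ContinuousAt.comp (g := L.weierstrassP) (f := fun w => s - w) (by simpa using this) (by fun_prop)
  have c5 : ContinuousAt (fun w : ℂ =>
      (1 - w ^ 2 * (L.weierstrassP (s - w) - L.weierstrassPExcept 0 w))) 0 := by fun_prop
  have h2 : ∀ᶠ w in 𝓝 (0:ℂ),
      (1 - w ^ 2 * (L.weierstrassP (s - w) - L.weierstrassPExcept 0 w)) ≠ 0 :=
    c5.eventually_ne (by simp)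
  filter_upwards [h0.filter_mono nhdsWithin_le_nhds, h1.filter_mono nhdsWithin_le_nhds,
    h2.filter_mono nhdsWithin_le_nhds, self_mem_nhdsWithin] with w hw0 hw1 hw2 hw3
  have hwne : w ≠ 0 := hw3
  have hwL : w ∉ L.lattice := by
    intro h; exact hw0 ⟨h, by simpa using hwne⟩
  have e1 : L.weierstrassP w = L.weierstrassPExcept 0 w + 1 / w ^ 2 := by
    have := L.weierstrassPExcept_add 0 w
    simpa using this.symm
  have e2 : L.derivWeierstrassP w = L.derivWeierstrassPExcept 0 w - 2 / w ^ 3 := by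
    have := L.derivWeierstrassPExcept_sub 0 w
    simpa using this.symm
  have hne : L.weierstrassP (s - w) - L.weierstrassP w =
      - (1 - w ^ 2 * (L.weierstrassP (s - w) - L.weierstrassPExcept 0 w)) / w ^ 2 := by
    rw [e1]; field_simp; ring
  have hne' : L.weierstrassP (s - w) - L.weierstrassP w ≠ 0 := by
    rw [hne]; exact div_ne_zero (neg_ne_zero.mpr hw2) (pow_ne_zero _ hwne)
  refine ⟨⟨hwL, hw1⟩, sub_ne_zero.mp hne', ?_⟩
  unfold hh RR
  rw [hne, e1, e2]
  set C := L.weierstrassP (s - w)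
  set D := L.derivWeierstrassP (s - w)
  set A := L.weierstrassPExcept 0 w
  set B := L.derivWeierstrassPExcept 0 w
  field_simp
  ring

lemma HH_eq_zero (hS : T_SND) (s : ℂ) (hs : s ∉ L.lattice) : Set.EqOn (HH L s) 0 (V L s) := by
  have hev := eventually_ne L s hs
  rw [eventually_nhdsWithin_iff, Metric.eventually_nhds_iff_ball] at hev
  obtain ⟨r, hr, hb⟩ := hev
  set S : Set ℂ := Metric.ball 0 r ∩ {w : ℂ | 0 < w.re} with hSdef
  have hSo : IsOpen S := Metric.isOpen_ball.inter (isOpen_lt continuous_const Complex.continuous_re)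
  have hSc : Convex ℝ S := (convex_ball 0 r).inter (convex_halfSpace_re_gt 0)
  have hSne : ∀ w ∈ S, w ≠ 0 := by
    rintro w ⟨_, hw⟩ rfl
    simp at hw
  have hp : ∀ w ∈ S, w ∈ V L s ∧ L.weierstrassP (s - w) ≠ L.weierstrassP w ∧
      hh L s w = RR L s w := fun w hw => hb w hw.1 (hSne w hw)
  have hder : ∀ w ∈ S, HasDerivAt (hh L s) 0 w := fun w hw =>
    hasDerivAt_hh L hS s w (hp w hw).1 (hp w hw).2.1
  have hconst : ∀ x ∈ S, ∀ y ∈ S, hh L s x = hh L s y := by
    intro x hx y hy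
    exact hSo.is_const_of_deriv_eq_zero hSc.isPreconnected
      (fun w hw => (hder w hw).differentiableAt.differentiableWithinAt)
      (fun w hw => (hder w hw).deriv) hx hy
  -- a point of S
  have hmem : ∀ ε : ℝ, 0 < ε → ε < r → ((ε : ℂ) ∈ S) := by
    intro ε h1 h2
    refine ⟨?_, ?_⟩
    · simp [abs_of_pos h1, h2]
    · simpa using h1
  set p : ℂ := ((r / 2 : ℝ) : ℂ) with hpdef
  have hpS : p ∈ S := hmem _ (by linarith) (by linarith)
  have hlim : hh L s p = L.weierstrassP s := by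
    have h1 : Tendsto (fun n : ℕ => RR L s (((r / 2) / (n + 1) : ℝ) : ℂ)) atTop (𝓝 (RR L s 0)) := by
      refine (continuousAt_RR L s hs).tendsto.comp ?_
      have : Tendsto (fun n : ℕ => (r / 2) / ((n : ℝ) + 1)) atTop (𝓝 0) := by
        have := tendsto_one_div_add_atTop_nhds_zero_nat (𝕜 := ℝ)
        have h := this.const_mul (r / 2)
        simpa [div_eq_mul_inv] using h
      have h2 := (Complex.continuous_ofReal.tendsto 0).comp this
      simpa [Function.comp_def] using h2
    have h2 : ∀ n : ℕ, RR L s (((r / 2) / (n + 1) : ℝ) : ℂ) = hh L s p := by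
      intro n
      have hn : (0 : ℝ) < (n : ℝ) + 1 := by positivity
      have hm : ((((r / 2) / (n + 1) : ℝ) : ℂ)) ∈ S := by
        apply hmem _ (by positivity)
        rw [div_lt_iff₀ hn]
        nlinarith [hn, (Nat.cast_nonneg n : (0:ℝ) ≤ n)]
      rw [← (hp _ hm).2.2]
      exact hconst _ hm _ hpS
    simp_rw [h2] at h1
    rw [← RR_zero L s]
    exact tendsto_nhds_unique tendsto_const_nhds h1
  have hzero : ∀ w ∈ S, HH L s w = 0 := by
    intro w hw
    have h1 : hh L s w = L.weierstrassP s := (hconst w hw p hpS).trans hlim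
    have hx : L.weierstrassP (s - w) - L.weierstrassP w ≠ 0 := sub_ne_zero.mpr (hp w hw).2.1
    unfold hh at h1
    unfold HH
    field_simp at h1
    linear_combination h1
  have hev2 : HH L s =ᶠ[𝓝 p] 0 := by
    filter_upwards [hSo.mem_nhds hpS] with w hw
    exact hzero w hw
  exact (analytic_HH L s).eqOn_zero_of_preconnected_of_eventuallyEq_zero (isPreconnected_V L s)
    (hp p hpS).1 hev2

lemma add_formula (hS : T_SND) (u v : ℂ) (hu : u ∉ L.lattice) (hv : v ∉ L.lattice)
    (hne : L.weierstrassP u ≠ L.weierstrassP v) :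
    L.weierstrassP (u + v) = ((L.derivWeierstrassP u - L.derivWeierstrassP v) /
      (L.weierstrassP u - L.weierstrassP v)) ^ 2 / 4 - L.weierstrassP u - L.weierstrassP v := by
  have hs := notMem_add L hne
  have h := HH_eq_zero L hS (u + v) hs (x := v) ⟨hv, by simpa using hu⟩
  unfold HH at h
  simp only [add_sub_cancel_right, Pi.zero_apply] at h
  have hx : L.weierstrassP u - L.weierstrassP v ≠ 0 := sub_ne_zero.mpr hne
  field_simp
  linear_combination -h

end ADD_

open ADD_ in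
theorem p_ADD (h1 : T_SND) : T_ADD := by
  intro L u v hu hv hne
  have hs := notMem_add L hne
  have hx : L.weierstrassP u - L.weierstrassP v ≠ 0 := sub_ne_zero.mpr hne
  have hf := add_formula L h1 u v hu hv hne
  refine ⟨hs, hf, ?_⟩
  -- differentiate in u
  have hadd : HasDerivAt (fun w : ℂ => w + v) 1 u := by
    simpa using (hasDerivAt_id u).add_const v
  have d0 : HasDerivAt (fun w => L.weierstrassP (w + v)) (L.derivWeierstrassP (u + v) * 1) u :=
    HasDerivAt.comp (h₂ := L.weierstrassP) (h := fun w : ℂ => w + v) u (h1 L (u + v) hs).1 hadd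
  have d1 := (h1 L u hu).1
  have d2 := (h1 L u hu).2
  have key := ((((d2.sub_const (L.derivWeierstrassP v)).div
    (d1.sub_const (L.weierstrassP v)) hx).pow 2).div_const 4).sub d1 |>.sub_const (L.weierstrassP v)
  have hev : (fun w => L.weierstrassP (w + v)) =ᶠ[𝓝 u] fun w =>
      ((L.derivWeierstrassP w - L.derivWeierstrassP v) /
        (L.weierstrassP w - L.weierstrassP v)) ^ 2 / 4 - L.weierstrassP w - L.weierstrassP v := by
    have e1 : ∀ᶠ w in 𝓝 u, w ∉ L.lattice := L.isClosed_lattice.isOpen_compl.mem_nhds hu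
    have e2 : ∀ᶠ w in 𝓝 u, L.weierstrassP w ≠ L.weierstrassP v :=
      d1.continuousAt.eventually_ne hne
    filter_upwards [e1, e2] with w hw1 hw2
    exact add_formula L h1 w v hw1 hv hw2
  have key2 := (key.congr_of_eventuallyEq hev).unique d0
  rw [mul_one] at key2
  rw [← key2, hf]
  exact alg2 _ _ _ _ _ _ (L.derivWeierstrassP_sq u hu) (L.derivWeierstrassP_sq v hv) hx

end SSW
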