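import Pool.Agent.SSW.Targets

/-!
# MP_d74fca_nt, complex multiplication in terms of `j` (CMC)
-/

open Polynomial
open scoped UpperHalfPlane

namespace SSW

open SSA SSP

/-- transport of the complex multiplication data along equalities of coefficients -/
theorem CMC_.transport (a b a' b' : ℂ) (ha : a' = a) (hb : b' = b) (c : ℂ) (D : ℕ)
    (h : ∃ α : MM a b, DD α = RatFunc.C c ∧
      (xr α).denom.natDegree < (xr α).num.natDegree ∧
      ∀ x : ℕ, rcomp (xr (x • idM a b + α)) (xr (x • idM a b - α)) =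
        xr ((x ^ 2 + D) • idM a b)) :
    ∃ α : MM a' b', DD α = RatFunc.C c ∧
      (xr α).denom.natDegree < (xr α).num.natDegree ∧
      ∀ x : ℕ, rcomp (xr (x • idM a' b' + α)) (xr (x • idM a' b' - α)) =
        xr ((x ^ 2 + D) • idM a' b') := by
  subst ha hb
  exact h

/-- the multiplier `al t + be` preserves the lattice -/
theorem CMC_.stable (t : ℍ) (al be ga : ℤ)
    (h : (al : ℂ) * (t : ℂ) ^ 2 + 2 * be * t + ga = 0) :
    ∀ l ∈ (LL t).lattice, ((al : ℂ) * t + be) * l ∈ (LL t).lattice := by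
  intro l hl
  rw [PeriodPair.mem_lattice] at hl ⊢
  obtain ⟨m, n, hmn⟩ := hl
  refine ⟨-be * m + al * n, -ga * m + be * n, ?_⟩
  have h1 : (LL t).ω₁ = (t : ℂ) := rfl
  have h2 : (LL t).ω₂ = 1 := rfl
  rw [h1, h2] at hmn ⊢
  rw [← hmn]
  push_cast
  linear_combination (-(m : ℂ)) * h

theorem p_CMC (h1 : T_CMN) (h2 : T_SCL) (h3 : T_NRM) : T_CMC := by
  intro t D al be ga hD hdet hq hj0 hj1
  obtain ⟨hyp, hn⟩ := h3 t
  obtain ⟨v, hv, hva, hvb⟩ := hn hj0 hj1
  have hc : ((al : ℂ) * t + be) ^ 2 = -(D : ℂ) := by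
    have hd : (al : ℂ) * ga - (be : ℂ) ^ 2 = (D : ℂ) := by exact_mod_cast hdet
    linear_combination (al : ℂ) * hq - hd
  obtain ⟨α, hα1, hα2, hα3⟩ := h1 (LL t) hyp ((al : ℂ) * t + be) D hD hc
    (CMC_.stable t al be ga hq)
  refine ⟨hj0, hj1, (al : ℂ) * t + be, hc, ?_⟩
  exact CMC_.transport _ _ _ _ hva hvb _ D
    (h2 ℂ (aw (LL t)) (bw (LL t)) v hyp hv _ D α hα1 hα2 hα3)

end SSW
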