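import Pool.Agent.SSW.Targets

/-!
# CMN: complex multiplication on the model of the lattice
-/

open Polynomial
open scoped UpperHalfPlane

namespace SSW

open SSA SSP

namespace CMN_

lemma no_real (c : ℂ) (D x : ℕ) (hD : 0 < D) (hc : c ^ 2 = -(D : ℂ)) (h : (x : ℂ) ^ 2 = c ^ 2) :
    False := by
  rw [hc] at h
  have h1 : ((x ^ 2 + D : ℕ) : ℂ) = 0 := by
    push_cast
    rw [h]
    ring
  have h2 : x ^ 2 + D = 0 := by exact_mod_cast h1
  omega

end CMN_

theorem p_CMN (h1 : T_RPB) (h2 : T_RPA) (h3 : T_RPX) (h4 : T_RPE) : T_CMN := by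
  intro L hL c D hD hc hmul
  have hc0 : c ≠ 0 := by
    rintro rfl
    have : ((D : ℕ) : ℂ) = 0 := by
      have h5 : -(D : ℂ) = 0 := by
        rw [← hc]
        ring
      exact neg_eq_zero.1 h5
    have : D = 0 := by exact_mod_cast this
    omega
  obtain ⟨α, hα, hdeg⟩ := h4 L hL c hc0 hmul
  obtain ⟨-, hB⟩ := h1 L hL
  obtain ⟨hAdd, -, hnat⟩ := h2 L hL
  obtain ⟨hαneg, -, -, -, hDDα⟩ := hB α c hα
  refine ⟨α, hDDα, hdeg, ?_⟩
  intro x
  rcases Nat.eq_zero_or_pos x with rfl | hx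
  · have e1 : (0 : ℕ) • idM (aw L) (bw L) + α = α := by rw [zero_nsmul, zero_add]
    have e2 : (0 : ℕ) • idM (aw L) (bw L) - α = -α := by rw [zero_nsmul, zero_sub]
    have e3 : (0 ^ 2 + D) = D := by ring
    rw [e1, e2, e3]
    have hD' := hnat D hD
    have e4 : (D : ℂ) = c * (-c) := by
      have : c * (-c) = -(c ^ 2) := by ring
      rw [this, hc, neg_neg]
    rw [e4] at hD'
    exact h3 L hL α (-α) _ c (-c) hα hαneg hD'
  · have hid := hnat x hx
    have hDDid := (hB _ _ hid).2.2.2.2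
    have hDDneg := (hB _ _ hαneg).2.2.2.2
    have hCinj : Function.Injective (RatFunc.C : ℂ →+* RatFunc ℂ) := RingHom.injective _
    have n1 : x • idM (aw L) (bw L) ≠ α := by
      intro h
      rw [h, hDDα] at hDDid
      have : c = (x : ℂ) := hCinj hDDid
      exact CMN_.no_real c D x hD hc (by rw [this])
    have n2 : x • idM (aw L) (bw L) ≠ -α := by
      intro h
      rw [h, hDDneg] at hDDid
      have : -c = (x : ℂ) := hCinj hDDid
      exact CMN_.no_real c D x hD hc (by rw [← this]; ring)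
    have r1 := hAdd _ _ _ _ hid hα n1 n2
    have r2 := hAdd _ _ _ _ hid hαneg n2 (by rw [neg_neg]; exact n1)
    rw [← sub_eq_add_neg] at r2
    have hx2 := hnat (x ^ 2 + D) (by positivity)
    have e4 : ((x ^ 2 + D : ℕ) : ℂ) = ((x : ℂ) + c) * ((x : ℂ) + -c) := by
      have : ((x : ℂ) + c) * ((x : ℂ) + -c) = (x : ℂ) ^ 2 - c ^ 2 := by ring
      rw [this, hc]
      push_cast
      ring
    rw [e4] at hx2
    exact h3 L hL _ _ _ _ _ r1 r2 hx2

end SSW
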