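import Pool.Agent.SSW.Targets

/-!
# CTB: countability of the fibres of `℘`
-/

open Polynomial
open scoped UpperHalfPlane Topology

namespace SSW

open SSA SSP

noncomputable section

namespace CTB_

theorem countable_lattice (L : PeriodPair) : (L.lattice : Set ℂ).Countable := by
  have : Countable L.lattice := L.latticeEquivProd.toEquiv.countable_iff.2 inferInstance
  exact Set.countable_coe_iff.1 this

/-- the zeros of an analytic function with isolated zeros are countable -/
theorem countable_zeros {f : ℂ → ℂ} {U : Set ℂ}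
    (h : ∀ z ∈ U, ∀ᶠ w in 𝓝[≠] z, f w ≠ 0) : {z : ℂ | z ∈ U ∧ f z = 0}.Countable := by
  have hd : DiscreteTopology ({z : ℂ | z ∈ U ∧ f z = 0} : Set ℂ) := by
    rw [discreteTopology_subtype_iff]
    intro x hx
    rw [← Filter.empty_mem_iff_bot, Filter.mem_inf_principal]
    filter_upwards [h x hx.1] with w hw hw'
    exact (hw hw'.2).elim
  have : Countable ({z : ℂ | z ∈ U ∧ f z = 0} : Set ℂ) :=
    TopologicalSpace.separableSpace_iff_countable.1 inferInstance
  exact Set.countable_coe_iff.1 this

theorem countable_fibre (L : PeriodPair) (c : ℂ) :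
    {z : ℂ | z ∈ (L.lattice : Set ℂ)ᶜ ∧ L.weierstrassP z - c = 0}.Countable := by
  refine countable_zeros (f := fun z => L.weierstrassP z - c) (fun z hz => ?_)
  have han : AnalyticOnNhd ℂ (fun z => L.weierstrassP z - c) (L.lattice : Set ℂ)ᶜ :=
    L.analyticOnNhd_weierstrassP.sub analyticOnNhd_const
  rcases (han z hz).eventually_eq_zero_or_eventually_ne_zero with h | h
  · exfalso
    have hconn : IsPreconnected (L.lattice : Set ℂ)ᶜ := by
      refine ((countable_lattice L).isConnected_compl_of_one_lt_rank ?_).isPreconnected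
      rw [Complex.rank_real_complex]
      exact Cardinal.one_lt_two
    have h0 := han.eqOn_zero_of_preconnected_of_eventuallyEq_zero hconn hz h
    have h1 : L.weierstrassP =ᶠ[𝓝[≠] (0 : ℂ)] fun _ => c := by
      filter_upwards [self_mem_nhdsWithin, mem_nhdsWithin_of_mem_nhds
        (L.compl_lattice_sdiff_singleton_mem_nhds 0)] with w hw hw'
      have hw'' : w ∈ (L.lattice : Set ℂ)ᶜ := by
        intro hwL
        exact hw' ⟨hwL, hw⟩
      have := h0 hw''
      simp only [Pi.zero_apply] at this
      exact sub_eq_zero.1 this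
    have h2 := meromorphicOrderAt_congr h1
    rw [L.order_weierstrassP 0 (zero_mem _)] at h2
    have h3 : MeromorphicAt (fun _ : ℂ => c) 0 := MeromorphicAt.const c 0
    have h4 : (0 : WithTop ℤ) ≤ meromorphicOrderAt (fun _ : ℂ => c) 0 :=
      (analyticAt_const (v := c) (x := (0 : ℂ))).meromorphicOrderAt_nonneg
    rw [← h2] at h4
    exact absurd h4 (by decide)
  · exact h

end CTB_

open CTB_ in
theorem p_CTB : T_CTB := by
  intro L
  have hA : ∀ (A : ℂ[X]), A ≠ 0 →
      {z : ℂ | z ∈ L.lattice ∨ A.eval (L.weierstrassP z) = 0}.Countable := by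
    intro A hA
    have h1 : {z : ℂ | z ∈ L.lattice ∨ A.eval (L.weierstrassP z) = 0} ⊆
        (L.lattice : Set ℂ) ∪ ⋃ c ∈ A.roots.toFinset,
          {z : ℂ | z ∈ (L.lattice : Set ℂ)ᶜ ∧ L.weierstrassP z - c = 0} := by
      rintro z hz
      by_cases hzL : z ∈ L.lattice
      · exact Or.inl hzL
      · right
        rcases hz with hz | hz
        · exact absurd hz hzL
        · simp only [Set.mem_iUnion]
          refine ⟨L.weierstrassP z, ?_, hzL, sub_self _⟩
          rw [Multiset.mem_toFinset, mem_roots hA]
          exact hz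
    refine Set.Countable.mono h1 ((countable_lattice L).union ?_)
    exact Set.Countable.biUnion (Finset.countable_toSet _) (fun c _ => countable_fibre L c)
  refine ⟨hA, ?_, ?_, ?_⟩
  · intro m hm S hS
    exact hS.preimage_of_injOn (f := fun z => m * z)
      (fun a _ b _ hab => mul_left_cancel₀ hm hab)
  · intro R S hRS
    by_contra hne
    have hR : R.denom ≠ 0 := R.denom_ne_zero
    have hS : S.denom ≠ 0 := S.denom_ne_zero
    have hpoly : R.num * S.denom - S.num * R.denom ≠ 0 := by
      intro h0
      apply hne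
      rw [← RatFunc.num_div_denom R, ← RatFunc.num_div_denom S]
      rw [div_eq_div_iff (RatFunc.algebraMap_ne_zero hR) (RatFunc.algebraMap_ne_zero hS),
        ← map_mul, ← map_mul, sub_eq_zero.1 h0]
    refine not_countable_complex (Set.Countable.mono ?_
      (((hA _ hpoly).union ((hA _ hR).union (hA _ hS))).union hRS))
    intro z _
    by_cases hzL : z ∈ L.lattice
    · exact Or.inl (Or.inl (Or.inl hzL))
    by_cases hzR : R.denom.eval (L.weierstrassP z) = 0
    · exact Or.inl (Or.inr (Or.inl (Or.inr hzR)))
    by_cases hzS : S.denom.eval (L.weierstrassP z) = 0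
    · exact Or.inl (Or.inr (Or.inr (Or.inr hzS)))
    by_cases hzP : (R.num * S.denom - S.num * R.denom).eval (L.weierstrassP z) = 0
    · exact Or.inl (Or.inl (Or.inr hzP))
    · right
      refine ⟨hzL, hzR, hzS, ?_⟩
      intro heq
      apply hzP
      unfold evr at heq
      rw [div_eq_div_iff hzR hzS] at heq
      rw [eval_sub, eval_mul, eval_mul, heq, sub_self]
  · have hcub : (C 4 * X ^ 3 - C L.g₂ * X - C L.g₃ : ℂ[X]) ≠ 0 := by
      intro h0
      have h1 := congrArg (fun p : ℂ[X] => p.coeff 3) h0
      simp at h1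
    refine Set.Countable.mono ?_ (hA _ hcub)
    rintro z ⟨hz, hz'⟩
    right
    have h1 := L.derivWeierstrassP_sq z hz
    rw [hz'] at h1
    simp only [eval_sub, eval_mul, eval_C, eval_pow, eval_X]
    rw [← h1]
    norm_num

end

end SSW
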