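import Pool.Agent.SSW.Targets

/-! Duplication formula for the Weierstrass function. -/

open Filter Topology

namespace SSW

namespace DUP_

variable (L : PeriodPair)

theorem two_notMem (u : ℂ) (h : L.derivWeierstrassP u ≠ 0) : u + u ∉ L.lattice := by
  intro hmem
  have h1 := L.derivWeierstrassP_sub_coe u ⟨u + u, hmem⟩
  have h2 : u - (u + u) = -u := by ring
  have h3 : L.derivWeierstrassP (u - (u + u)) = L.derivWeierstrassP u := h1
  rw [h2, L.derivWeierstrassP_neg] at h3
  apply h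
  have h4 : 2 * L.derivWeierstrassP u = 0 := by linear_combination -h3
  simpa using h4

theorem phi (h1 : T_SND) (u : ℂ) (hu : u ∉ L.lattice) (h : L.derivWeierstrassP u ≠ 0) :
    Tendsto (fun v => (L.derivWeierstrassP u - L.derivWeierstrassP v) /
      (L.weierstrassP u - L.weierstrassP v)) (𝓝[≠] u)
      (𝓝 ((6 * L.weierstrassP u ^ 2 - L.g₂ / 2) / L.derivWeierstrassP u)) := by
  obtain ⟨d1, d2⟩ := h1 L u hu
  have t := (hasDerivAt_iff_tendsto_slope.1 d2).div (hasDerivAt_iff_tendsto_slope.1 d1) h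
  refine t.congr' ?_
  filter_upwards [self_mem_nhdsWithin] with v hv
  have hv' : v - u ≠ 0 := sub_ne_zero.2 hv
  simp only [Pi.div_apply, slope_def_field]
  rw [div_div_div_cancel_right₀ hv', ← neg_sub (L.derivWeierstrassP u), ← neg_sub (L.weierstrassP u),
    neg_div_neg_eq]

theorem notMem_nhds (u : ℂ) (hu : u ∉ L.lattice) : ∀ᶠ v in 𝓝 u, v ∉ L.lattice :=
  L.isClosed_lattice.isOpen_compl.mem_nhds hu

theorem key (h1 : T_SND) (h2 : T_ADD) (u : ℂ) (hu : u ∉ L.lattice)
    (h : L.derivWeierstrassP u ≠ 0) :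
    ∀ᶠ v in 𝓝[≠] u, L.weierstrassP (u + v) =
      ((L.derivWeierstrassP u - L.derivWeierstrassP v) /
        (L.weierstrassP u - L.weierstrassP v)) ^ 2 / 4 - L.weierstrassP u - L.weierstrassP v ∧
      L.derivWeierstrassP (u + v) = -((L.derivWeierstrassP u - L.derivWeierstrassP v) /
      (L.weierstrassP u - L.weierstrassP v) * (L.weierstrassP (u + v) - L.weierstrassP u) +
      L.derivWeierstrassP u) := by
  obtain ⟨d1, d2⟩ := h1 L u hu
  filter_upwards [d1.eventually_ne h (c := L.weierstrassP u),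
    nhdsWithin_le_nhds (notMem_nhds L u hu)] with v hv1 hv2
  exact (h2 L u v hu hv2 (Ne.symm hv1)).2

end DUP_

open DUP_ in
theorem p_DUP (h1 : T_SND) (h2 : T_ADD) : T_DUP := by
  intro L u hu h
  have h0 := two_notMem L u h
  obtain ⟨d1, d2⟩ := h1 L u hu
  obtain ⟨e1, e2⟩ := h1 L (u + u) h0
  have hk := key L h1 h2 u hu h
  have hphi := phi L h1 u hu h
  have hadd : Tendsto (fun v : ℂ => u + v) (𝓝[≠] u) (𝓝 (u + u)) :=
    ((continuous_const.add continuous_id).tendsto u).mono_left nhdsWithin_le_nhds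
  have c1 : Tendsto L.weierstrassP (𝓝[≠] u) (𝓝 (L.weierstrassP u)) :=
    d1.continuousAt.tendsto.mono_left nhdsWithin_le_nhds
  have c2 : Tendsto (fun v => L.weierstrassP (u + v)) (𝓝[≠] u) (𝓝 (L.weierstrassP (u + u))) :=
    e1.continuousAt.tendsto.comp hadd
  have c3 : Tendsto (fun v => L.derivWeierstrassP (u + v)) (𝓝[≠] u)
      (𝓝 (L.derivWeierstrassP (u + u))) := e2.continuousAt.tendsto.comp hadd
  refine ⟨h0, ?_, ?_⟩
  · have r1 := ((((hphi.pow 2).div_const 4).sub_const (L.weierstrassP u)).sub c1)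
    have r2 := tendsto_nhds_unique (c2.congr' (hk.mono fun v hv => hv.1)) r1
    rw [r2]; ring
  · have r1 := ((hphi.mul (c2.sub_const (L.weierstrassP u))).add_const
      (L.derivWeierstrassP u)).neg
    exact tendsto_nhds_unique (c3.congr' (hk.mono fun v hv => hv.2)) r1

end SSW
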