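import Pool.Agent.SSW.Targets

open Polynomial
open scoped UpperHalfPlane

namespace SSW

open SSA SSP

namespace EVR_

lemma core (A B : ℂ[X]) (x : ℂ) (hB : B.eval x ≠ 0) :
    (algebraMap ℂ[X] (RatFunc ℂ) A / algebraMap ℂ[X] (RatFunc ℂ) B).denom.eval x ≠ 0 ∧
    evr (algebraMap ℂ[X] (RatFunc ℂ) A / algebraMap ℂ[X] (RatFunc ℂ) B) x
      = A.eval x / B.eval x := by
  have hB0 : B ≠ 0 := by
    rintro rfl
    simp at hB
  have hd : (algebraMap ℂ[X] (RatFunc ℂ) A / algebraMap ℂ[X] (RatFunc ℂ) B).denom.eval x ≠ 0 := by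
    intro h
    obtain ⟨E, hE⟩ := RatFunc.denom_div_dvd A B
    apply hB
    rw [hE, eval_mul, h, zero_mul]
  refine ⟨hd, ?_⟩
  set R := algebraMap ℂ[X] (RatFunc ℂ) A / algebraMap ℂ[X] (RatFunc ℂ) B with hR
  have hcross : R.num * B = A * R.denom := by
    have h1 : algebraMap ℂ[X] (RatFunc ℂ) R.num / algebraMap ℂ[X] (RatFunc ℂ) R.denom
        = algebraMap ℂ[X] (RatFunc ℂ) A / algebraMap ℂ[X] (RatFunc ℂ) B := by
      rw [RatFunc.num_div_denom]
    rw [div_eq_div_iff (RatFunc.algebraMap_ne_zero R.denom_ne_zero)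
      (RatFunc.algebraMap_ne_zero hB0), ← map_mul, ← map_mul] at h1
    exact RatFunc.algebraMap_injective ℂ h1
  have h2 := congrArg (fun P : ℂ[X] => P.eval x) hcross
  simp only [eval_mul] at h2
  unfold evr
  rw [div_eq_div_iff hd hB]
  exact h2

lemma of_eq {T : RatFunc ℂ} {A B : ℂ[X]} {x : ℂ} (hB : B.eval x ≠ 0)
    (h : T = algebraMap ℂ[X] (RatFunc ℂ) A / algebraMap ℂ[X] (RatFunc ℂ) B) :
    T.denom.eval x ≠ 0 ∧ evr T x = A.eval x / B.eval x := by
  rw [h]; exact core A B x hB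

lemma rep (R : RatFunc ℂ) :
    R = algebraMap ℂ[X] (RatFunc ℂ) R.num / algebraMap ℂ[X] (RatFunc ℂ) R.denom :=
  (RatFunc.num_div_denom R).symm

lemma dnz (R : RatFunc ℂ) : algebraMap ℂ[X] (RatFunc ℂ) R.denom ≠ 0 :=
  RatFunc.algebraMap_ne_zero R.denom_ne_zero

lemma add (R S : RatFunc ℂ) (x : ℂ) (hR : R.denom.eval x ≠ 0) (hS : S.denom.eval x ≠ 0) :
    (R + S).denom.eval x ≠ 0 ∧ evr (R + S) x = evr R x + evr S x := by
  have h : R + S = algebraMap ℂ[X] (RatFunc ℂ) (R.num * S.denom + R.denom * S.num) /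
      algebraMap ℂ[X] (RatFunc ℂ) (R.denom * S.denom) := by
    conv_lhs => rw [rep R, rep S]
    rw [div_add_div _ _ (dnz R) (dnz S)]
    simp only [map_mul, map_add]
  have h1 := of_eq (x := x) (by rw [eval_mul]; exact mul_ne_zero hR hS) h
  refine ⟨h1.1, ?_⟩
  rw [h1.2]
  unfold evr
  rw [div_add_div _ _ hR hS]
  simp only [eval_mul, eval_add]

lemma sub (R S : RatFunc ℂ) (x : ℂ) (hR : R.denom.eval x ≠ 0) (hS : S.denom.eval x ≠ 0) :
    (R - S).denom.eval x ≠ 0 ∧ evr (R - S) x = evr R x - evr S x := by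
  have h : R - S = algebraMap ℂ[X] (RatFunc ℂ) (R.num * S.denom - R.denom * S.num) /
      algebraMap ℂ[X] (RatFunc ℂ) (R.denom * S.denom) := by
    conv_lhs => rw [rep R, rep S]
    rw [div_sub_div _ _ (dnz R) (dnz S)]
    simp only [map_mul, map_sub]
  have h1 := of_eq (x := x) (by rw [eval_mul]; exact mul_ne_zero hR hS) h
  refine ⟨h1.1, ?_⟩
  rw [h1.2]
  unfold evr
  rw [div_sub_div _ _ hR hS]
  simp only [eval_mul, eval_sub]

lemma mul (R S : RatFunc ℂ) (x : ℂ) (hR : R.denom.eval x ≠ 0) (hS : S.denom.eval x ≠ 0) :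
    (R * S).denom.eval x ≠ 0 ∧ evr (R * S) x = evr R x * evr S x := by
  have h : R * S = algebraMap ℂ[X] (RatFunc ℂ) (R.num * S.num) /
      algebraMap ℂ[X] (RatFunc ℂ) (R.denom * S.denom) := by
    conv_lhs => rw [rep R, rep S]
    rw [div_mul_div_comm]
    simp only [map_mul]
  have h1 := of_eq (x := x) (by rw [eval_mul]; exact mul_ne_zero hR hS) h
  refine ⟨h1.1, ?_⟩
  rw [h1.2]
  unfold evr
  rw [div_mul_div_comm]
  simp only [eval_mul]

lemma div (R S : RatFunc ℂ) (x : ℂ) (hR : R.denom.eval x ≠ 0) (hS : S.denom.eval x ≠ 0)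
    (hS0 : evr S x ≠ 0) :
    (R / S).denom.eval x ≠ 0 ∧ evr (R / S) x = evr R x / evr S x := by
  have hn : S.num.eval x ≠ 0 := by
    intro h0
    apply hS0
    unfold evr
    rw [h0, zero_div]
  have h : R / S = algebraMap ℂ[X] (RatFunc ℂ) (R.num * S.denom) /
      algebraMap ℂ[X] (RatFunc ℂ) (R.denom * S.num) := by
    conv_lhs => rw [rep R, rep S]
    rw [div_div_div_eq]
    simp only [map_mul]
  have h1 := of_eq (x := x) (by rw [eval_mul]; exact mul_ne_zero hR hn) h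
  refine ⟨h1.1, ?_⟩
  rw [h1.2]
  unfold evr
  rw [div_div_div_eq]
  simp only [eval_mul]

lemma const (c x : ℂ) : (RatFunc.C c).denom.eval x ≠ 0 ∧ evr (RatFunc.C c) x = c := by
  have h1 := of_eq (T := RatFunc.C c) (A := C c) (B := 1) (x := x) (by simp)
    (by rw [map_one, div_one, RatFunc.algebraMap_C])
  refine ⟨h1.1, ?_⟩
  rw [h1.2]; simp

lemma var (x : ℂ) : (RatFunc.X : RatFunc ℂ).denom.eval x ≠ 0 ∧ evr RatFunc.X x = x := by
  have h1 := of_eq (T := RatFunc.X) (A := X) (B := 1) (x := x) (by simp)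
    (by rw [map_one, div_one, RatFunc.algebraMap_X])
  refine ⟨h1.1, ?_⟩
  rw [h1.2]; simp

lemma aev (R : RatFunc ℂ) (x : ℂ) (hR : R.denom.eval x ≠ 0) (G : ℂ[X]) :
    (aeval R G).denom.eval x ≠ 0 ∧ evr (aeval R G) x = G.eval (evr R x) := by
  induction G using Polynomial.induction_on' with
  | add p q hp hq =>
    have h := add _ _ x hp.1 hq.1
    rw [map_add, eval_add]
    exact ⟨h.1, by rw [h.2, hp.2, hq.2]⟩
  | monomial n a =>
    have hpow : ∀ m : ℕ, (R ^ m).denom.eval x ≠ 0 ∧ evr (R ^ m) x = evr R x ^ m := by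
      intro m
      induction m with
      | zero =>
        have h := const 1 x
        rw [map_one] at h
        rw [pow_zero, pow_zero]
        exact h
      | succ m ih =>
        have h := mul _ _ x ih.1 hR
        rw [pow_succ, pow_succ]
        exact ⟨h.1, by rw [h.2, ih.2]⟩
    have e : aeval R (monomial n a) = RatFunc.C a * R ^ n := by
      rw [aeval_monomial]
      rfl
    rw [e, eval_monomial]
    have h := mul _ _ x (const a x).1 (hpow n).1
    exact ⟨h.1, by rw [h.2, (const a x).2, (hpow n).2]⟩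

lemma comp (g R : RatFunc ℂ) (x : ℂ) (hR : R.denom.eval x ≠ 0)
    (hg : g.denom.eval (evr R x) ≠ 0) :
    (rcomp g R).denom.eval x ≠ 0 ∧ evr (rcomp g R) x = evr g (evr R x) := by
  have hn := aev R x hR g.num
  have hd := aev R x hR g.denom
  have h := div _ _ x hn.1 hd.1 (by rw [hd.2]; exact hg)
  refine ⟨h.1, ?_⟩
  unfold rcomp
  rw [h.2, hn.2, hd.2]
  rfl

lemma deriv (R : RatFunc ℂ) (x : ℂ) (hR : R.denom.eval x ≠ 0) :
    (rder R).denom.eval x ≠ 0 ∧ HasDerivAt (evr R) (evr (rder R) x) x := by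
  have h1 := of_eq (T := rder R) (x := x) (A := derivative R.num * R.denom - R.num * derivative R.denom)
    (B := R.denom ^ 2) (by rw [eval_pow]; exact pow_ne_zero 2 hR) rfl
  refine ⟨h1.1, ?_⟩
  rw [h1.2]
  have h2 := (R.num.hasDerivAt x).div (R.denom.hasDerivAt x) hR
  simp only [eval_sub, eval_mul, eval_pow]
  exact h2

end EVR_

theorem p_EVR : T_EVR := by
  refine ⟨?_, EVR_.div, EVR_.const, EVR_.var, EVR_.core, ?_, EVR_.deriv⟩
  · intro R S x hR hS
    obtain ⟨a1, a2⟩ := EVR_.add R S x hR hS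
    obtain ⟨b1, b2⟩ := EVR_.sub R S x hR hS
    obtain ⟨c1, c2⟩ := EVR_.mul R S x hR hS
    exact ⟨a1, a2, b1, b2, c1, c2⟩
  · intro g R x _ hR hg
    exact EVR_.comp g R x hR hg

end SSW
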