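import Pool.Agent.SSW.Targets

/-!
# MP_d74fca_nt: fibres of the Weierstrass function
-/

open Polynomial Filter Topology

namespace SSW

namespace FIB_

theorem main (h1 : T_ADD) (h2 : T_CTB) (L : PeriodPair) (z w : ℂ) (hz : z ∉ L.lattice)
    (hw : w ∉ L.lattice) (hP : L.weierstrassP z = L.weierstrassP w)
    (hD : L.derivWeierstrassP z = L.derivWeierstrassP w) : w - z ∈ L.lattice := by
  by_contra hd
  have hA : (X - C (L.weierstrassP z) : ℂ[X]) ≠ 0 := X_sub_C_ne_zero _
  have hS := (h2 L).1 _ hA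
  set S : Set ℂ := {t : ℂ | t ∈ L.lattice ∨ (X - C (L.weierstrassP z) : ℂ[X]).eval
    (L.weierstrassP t) = 0} with hSdef
  have hS' : {s : ℂ | s - z ∈ S}.Countable :=
    hS.preimage (f := fun s : ℂ => s - z) (fun a b h => by simpa using h)
  have hdense : Dense ({s : ℂ | s - z ∈ S}ᶜ) := hS'.dense_compl ℂ
  have hord : meromorphicOrderAt L.weierstrassP 0 < 0 := by
    rw [L.order_weierstrassP 0 (zero_mem _)]
    decide
  have hbig : ∀ᶠ s in 𝓝[≠] (0 : ℂ), ‖L.weierstrassP (w - z)‖ + 1 < ‖L.weierstrassP s‖ := by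
    have := tendsto_cobounded_of_meromorphicOrderAt_neg hord
    rw [← tendsto_norm_atTop_iff_cobounded] at this
    exact this.eventually_gt_atTop _
  have hsmall : ∀ᶠ s in 𝓝[≠] (0 : ℂ), ‖L.weierstrassP (s + (w - z))‖ <
      ‖L.weierstrassP (w - z)‖ + 1 := by
    have hc : ContinuousAt L.weierstrassP (w - z) :=
      (L.analyticOnNhd_weierstrassP (w - z) hd).continuousAt
    have hc2 : Tendsto (fun s : ℂ => ‖L.weierstrassP (s + (w - z))‖) (𝓝 0)
        (𝓝 ‖L.weierstrassP (w - z)‖) := by
      have h3 : Tendsto (fun s : ℂ => s + (w - z)) (𝓝 0) (𝓝 (w - z)) := by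
        have : Continuous (fun s : ℂ => s + (w - z)) := by fun_prop
        simpa using this.tendsto 0
      exact (hc.tendsto.comp h3).norm
    exact (hc2.eventually_lt_const (by linarith)).filter_mono nhdsWithin_le_nhds
  have hboth := hbig.and hsmall
  rw [eventually_nhdsWithin_iff, Metric.eventually_nhds_iff] at hboth
  obtain ⟨ε, hε, hball⟩ := hboth
  have hopen : IsOpen (Metric.ball (0 : ℂ) ε \ {0}) :=
    Metric.isOpen_ball.sdiff isClosed_singleton
  have hne : (Metric.ball (0 : ℂ) ε \ {0}).Nonempty := by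
    refine ⟨((ε / 2 : ℝ) : ℂ), ?_, ?_⟩
    · rw [Metric.mem_ball, dist_zero_right, Complex.norm_real, Real.norm_eq_abs,
        abs_of_pos (by linarith)]
      linarith
    · simp only [Set.mem_singleton_iff, Complex.ofReal_eq_zero]
      intro h
      linarith
  obtain ⟨s, hs1, hs2⟩ := hdense.exists_mem_open hopen hne
  obtain ⟨hs3, hs4⟩ := hs2
  have hb := hball (Metric.mem_ball.mp hs3) (by simpa using hs4)
  have hs5 : s - z ∉ S := hs1
  rw [hSdef, Set.mem_ofPred_eq, not_or] at hs5
  obtain ⟨hs6, hs7⟩ := hs5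
  have hne2 : L.weierstrassP z ≠ L.weierstrassP (s - z) := by
    intro h
    apply hs7
    simp [h]
  have hne3 : L.weierstrassP w ≠ L.weierstrassP (s - z) := by rwa [← hP]
  have e1 := (h1 L z (s - z) hz hs6 hne2).2.1
  have e2 := (h1 L w (s - z) hw hs6 hne3).2.1
  have e3 : L.weierstrassP (z + (s - z)) = L.weierstrassP (w + (s - z)) := by
    rw [e1, e2, hP, hD]
  have e4 : z + (s - z) = s := by ring
  have e5 : w + (s - z) = s + (w - z) := by ring
  rw [e4, e5] at e3
  rw [e3] at hb
  linarith [hb.1, hb.2]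

end FIB_

theorem p_FIB (h1 : T_ADD) (h2 : T_CTB) : T_FIB := by
  intro L z w hz hw hP
  have hsq : L.derivWeierstrassP z ^ 2 = L.derivWeierstrassP w ^ 2 := by
    rw [L.derivWeierstrassP_sq z hz, L.derivWeierstrassP_sq w hw, hP]
  rcases sq_eq_sq_iff_eq_or_eq_neg.mp hsq with h | h
  · left
    have := FIB_.main h1 h2 L z w hz hw hP h
    have h3 := L.lattice.neg_mem this
    rwa [neg_sub] at h3
  · right
    have hw' : -w ∉ L.lattice := fun h3 => hw (by simpa using L.lattice.neg_mem h3)
    have := FIB_.main h1 h2 L z (-w) hz hw' (by rw [L.weierstrassP_neg, hP])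
      (by rw [L.derivWeierstrassP_neg, h])
    have h3 := L.lattice.neg_mem this
    have e : -(-w - z) = z + w := by ring
    rwa [e] at h3

end SSW
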