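import Pool.Agent.SSW.Targets

/-!
# MP_d74fca_nt, complex multiplication part: `j` determines the point modulo `SL(2,ℤ)` (job SSW-INJ)
-/

open scoped UpperHalfPlane

namespace SSW

namespace INJ_

noncomputable section

/-- scaled pair of periods -/
def sc (L : PeriodPair) (v : ℂ) (hv : v ≠ 0) : PeriodPair where
  ω₁ := v * L.ω₁
  ω₂ := v * L.ω₂
  indep := by
    have h := L.indep
    rw [LinearIndependent.pair_iff] at h ⊢
    intro x y hxy
    apply h x y
    rw [Complex.real_smul, Complex.real_smul] at hxy ⊢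
    have h2 : v * ((x : ℂ) * L.ω₁ + (y : ℂ) * L.ω₂) = 0 := by
      linear_combination hxy
    rcases mul_eq_zero.mp h2 with h3 | h3
    · exact absurd h3 hv
    · exact h3

lemma mem_sc (L : PeriodPair) (v : ℂ) (hv : v ≠ 0) (x : ℂ) :
    x ∈ (sc L v hv).lattice ↔ v⁻¹ * x ∈ L.lattice := by
  rw [PeriodPair.mem_lattice, PeriodPair.mem_lattice]
  constructor
  · rintro ⟨m, n, h⟩
    refine ⟨m, n, ?_⟩
    rw [← h]
    change (m : ℂ) * L.ω₁ + n * L.ω₂ = v⁻¹ * (m * (v * L.ω₁) + n * (v * L.ω₂))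
    field_simp
  · rintro ⟨m, n, h⟩
    refine ⟨m, n, ?_⟩
    change (m : ℂ) * (v * L.ω₁) + n * (v * L.ω₂) = x
    have h2 : v * (v⁻¹ * x) = x := by field_simp
    rw [← h2, ← h]
    ring

/-- scaling as an equivalence of the lattices -/
def eqv (L : PeriodPair) (v : ℂ) (hv : v ≠ 0) : L.lattice ≃ (sc L v hv).lattice where
  toFun y := ⟨v * y, by
    rw [mem_sc, ← mul_assoc, inv_mul_cancel₀ hv, one_mul]
    exact y.2⟩
  invFun x := ⟨v⁻¹ * x, (mem_sc L v hv x).mp x.2⟩
  left_inv y := by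
    apply Subtype.ext
    change v⁻¹ * (v * (y : ℂ)) = y
    rw [← mul_assoc, inv_mul_cancel₀ hv, one_mul]
  right_inv x := by
    apply Subtype.ext
    change v * (v⁻¹ * (x : ℂ)) = x
    rw [← mul_assoc, mul_inv_cancel₀ hv, one_mul]

lemma G_sc (L : PeriodPair) (v : ℂ) (hv : v ≠ 0) (n : ℕ) :
    (sc L v hv).G n = (v ^ n)⁻¹ * L.G n := by
  unfold PeriodPair.G
  rw [← (eqv L v hv).tsum_eq, ← tsum_mul_left]
  refine tsum_congr fun l => ?_
  change ((v * (l : ℂ)) ^ n)⁻¹ = (v ^ n)⁻¹ * ((l : ℂ) ^ n)⁻¹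
  rw [mul_pow, mul_inv]

lemma exists_root (n : ℕ) (hn : 0 < n) (z : ℂ) (hz : z ≠ 0) : ∃ u : ℂ, u ≠ 0 ∧ u ^ n = z := by
  obtain ⟨u, hu⟩ := IsAlgClosed.exists_pow_nat_eq z hn
  refine ⟨u, ?_, hu⟩
  rintro rfl
  rw [zero_pow hn.ne'] at hu
  exact hz hu.symm

/-- algebra: equal `j` gives proportional invariants -/
lemma exists_mu (a b a' b' : ℂ) (h : a ^ 3 - b ^ 2 ≠ 0) (h' : a' ^ 3 - b' ^ 2 ≠ 0)
    (hj : a ^ 3 * (a' ^ 3 - b' ^ 2) = a' ^ 3 * (a ^ 3 - b ^ 2)) :
    ∃ u : ℂ, u ≠ 0 ∧ a' = u ^ 4 * a ∧ b' = u ^ 6 * b := by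
  have hj2 : a ^ 3 * b' ^ 2 = a' ^ 3 * b ^ 2 := by linear_combination -hj
  by_cases ha : a = 0
  · subst ha
    have hb : b ≠ 0 := by
      rintro rfl
      apply h
      ring
    have ha' : a' = 0 := by
      have h1 : a' ^ 3 * b ^ 2 = 0 := by
        rw [← hj2]
        ring
      rcases mul_eq_zero.mp h1 with h2 | h2
      · exact pow_eq_zero_iff (by norm_num) |>.mp h2
      · exact absurd (pow_eq_zero_iff (by norm_num) |>.mp h2) hb
    subst ha'
    have hb' : b' ≠ 0 := by
      rintro rfl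
      apply h'
      ring
    obtain ⟨u, hu, hu6⟩ := exists_root 6 (by norm_num) (b' / b) (div_ne_zero hb' hb)
    refine ⟨u, hu, by ring, ?_⟩
    rw [hu6]
    field_simp
  · by_cases hb : b = 0
    · subst hb
      have hb' : b' = 0 := by
        have h1 : a ^ 3 * b' ^ 2 = 0 := by
          rw [hj2]
          ring
        rcases mul_eq_zero.mp h1 with h2 | h2
        · exact absurd (pow_eq_zero_iff (by norm_num) |>.mp h2) ha
        · exact pow_eq_zero_iff (by norm_num) |>.mp h2
      subst hb'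
      have ha' : a' ≠ 0 := by
        rintro rfl
        apply h'
        ring
      obtain ⟨u, hu, hu4⟩ := exists_root 4 (by norm_num) (a' / a) (div_ne_zero ha' ha)
      refine ⟨u, hu, ?_, by ring⟩
      rw [hu4]
      field_simp
    · have ha' : a' ≠ 0 := by
        rintro rfl
        have h1 : a ^ 3 * b' ^ 2 = 0 := by
          rw [hj2]
          ring
        rcases mul_eq_zero.mp h1 with h2 | h2
        · exact ha (pow_eq_zero_iff (by norm_num) |>.mp h2)
        · apply h'
          rw [h2]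
          ring
      have hb' : b' ≠ 0 := by
        rintro rfl
        have h1 : a' ^ 3 * b ^ 2 = 0 := by
          rw [← hj2]
          ring
        rcases mul_eq_zero.mp h1 with h2 | h2
        · exact ha' (pow_eq_zero_iff (by norm_num) |>.mp h2)
        · exact hb (pow_eq_zero_iff (by norm_num) |>.mp h2)
      obtain ⟨u, hu, hu2⟩ := exists_root 2 (by norm_num) (b' * a / (b * a'))
        (div_ne_zero (mul_ne_zero hb' ha) (mul_ne_zero hb ha'))
      have h4 : u ^ 4 = a' / a := by
        have e1 : u ^ 4 = (u ^ 2) ^ 2 := by ring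
        rw [e1, hu2]
        field_simp
        linear_combination hj2
      refine ⟨u, hu, ?_, ?_⟩
      · rw [h4]
        field_simp
      · have e1 : u ^ 6 = u ^ 2 * u ^ 4 := by ring
        rw [e1, h4, hu2]
        field_simp

end

end INJ_

theorem p_INJ (h1 : T_LNK) (h2 : T_RIG) : T_INJ := by
  intro t t' hj
  have hD := ModularForm.discriminant_ne_zero t
  have hD' := ModularForm.discriminant_ne_zero t'
  have eD := ModularForm.discriminant_eq_E₄_cube_sub_E₆_sq t
  have eD' := ModularForm.discriminant_eq_E₄_cube_sub_E₆_sq t'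
  unfold jt at hj
  rw [div_eq_div_iff hD hD', eD, eD'] at hj
  rw [eD] at hD
  rw [eD'] at hD'
  obtain ⟨u, hu, e4, e6⟩ := INJ_.exists_mu (ModularForm.E₄ t) (ModularForm.E₆ t)
    (ModularForm.E₄ t') (ModularForm.E₆ t') (fun h => hD (by rw [h, zero_div]))
    (fun h => hD' (by rw [h, zero_div])) (by linear_combination 1728 * hj)
  have hu' : u⁻¹ ≠ 0 := inv_ne_zero hu
  have hlat : (INJ_.sc (LL t) u⁻¹ hu').lattice = (LL t').lattice := by
    apply h2
    · have h3 := (h1 t).1
      have h4 := (h1 t').1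
      rw [h4, e4]
      have h5 : (INJ_.sc (LL t) u⁻¹ hu').g₂ = u ^ 4 * (LL t).g₂ := by
        unfold PeriodPair.g₂
        rw [INJ_.G_sc, inv_pow, inv_inv]
        ring
      rw [h5, h3]
      ring
    · have h3 := (h1 t).2
      have h4 := (h1 t').2
      rw [h4, e6]
      have h5 : (INJ_.sc (LL t) u⁻¹ hu').g₃ = u ^ 6 * (LL t).g₃ := by
        unfold PeriodPair.g₃
        rw [INJ_.G_sc, inv_pow, inv_inv]
        ring
      rw [h5, h3]
      ring
  -- the matrix
  have ht' : (t' : ℂ) ∈ (INJ_.sc (LL t) u⁻¹ hu').lattice := by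
    rw [hlat]
    exact PeriodPair.ω₁_mem_lattice (L := LL t')
  have h1' : (1 : ℂ) ∈ (INJ_.sc (LL t) u⁻¹ hu').lattice := by
    rw [hlat]
    exact PeriodPair.ω₂_mem_lattice (L := LL t')
  have ht : u⁻¹ * (t : ℂ) ∈ (LL t').lattice := by
    rw [← hlat]
    exact PeriodPair.ω₁_mem_lattice (L := INJ_.sc (LL t) u⁻¹ hu')
  have h1t : u⁻¹ * (1 : ℂ) ∈ (LL t').lattice := by
    rw [← hlat]
    exact PeriodPair.ω₂_mem_lattice (L := INJ_.sc (LL t) u⁻¹ hu')
  rw [INJ_.mem_sc, inv_inv, PeriodPair.mem_lattice] at ht' h1'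
  rw [PeriodPair.mem_lattice] at ht h1t
  obtain ⟨a, b, hab⟩ := ht'
  obtain ⟨c, d, hcd⟩ := h1'
  obtain ⟨a', b', hab'⟩ := ht
  obtain ⟨c', d', hcd'⟩ := h1t
  change (a : ℂ) * (t : ℂ) + b * 1 = u * t' at hab
  change (c : ℂ) * (t : ℂ) + d * 1 = u * 1 at hcd
  change (a' : ℂ) * (t' : ℂ) + b' * 1 = u⁻¹ * t at hab'
  change (c' : ℂ) * (t' : ℂ) + d' * 1 = u⁻¹ * 1 at hcd'
  -- imaginary parts
  have him : 0 < t.im := t.im_pos
  have him' : 0 < t'.im := t'.im_pos
  have hab2 : (t : ℂ) = u * (a' * t' + b') := by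
    have : u * (u⁻¹ * (t : ℂ)) = t := by field_simp
    rw [← this, ← hab']
    ring
  have hcd2 : (1 : ℂ) = u * (c' * t' + d') := by
    have : u * (u⁻¹ * (1 : ℂ)) = 1 := by field_simp
    rw [← this, ← hcd']
    ring
  have hab1 : u * (t' : ℂ) = a * t + b := by rw [← hab]; ring
  have hcd1 : u = c * t + d := by
    have := hcd
    rw [mul_one, mul_one] at this
    exact this.symm
  -- u t' = u (a (a' t' + b') + b (c' t' + d'))
  have key1 : (t' : ℂ) = (a * a' + b * c' : ℤ) * t' + (a * b' + b * d' : ℤ) := by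
    have h5 : u * (t' : ℂ) = u * ((a * a' + b * c' : ℤ) * t' + (a * b' + b * d' : ℤ)) := by
      rw [hab1]
      push_cast
      linear_combination (a : ℂ) * hab2 + (b : ℂ) * hcd2
    exact mul_left_cancel₀ hu h5
  have key2 : (1 : ℂ) = (c * a' + d * c' : ℤ) * t' + (c * b' + d * d' : ℤ) := by
    have h5 : u * (1 : ℂ) = u * ((c * a' + d * c' : ℤ) * t' + (c * b' + d * d' : ℤ)) := by
      rw [mul_one]
      nth_rewrite 1 [hcd1]
      push_cast
      linear_combination (c : ℂ) * hab2 + (d : ℂ) * hcd2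
    exact mul_left_cancel₀ hu h5
  have im1 := congrArg Complex.im key1
  have im2 := congrArg Complex.im key2
  have re1 := congrArg Complex.re key1
  have re2 := congrArg Complex.re key2
  simp only [Complex.add_im, Complex.add_re, Complex.mul_im, Complex.mul_re, Complex.intCast_re,
    Complex.intCast_im, UpperHalfPlane.coe_im, UpperHalfPlane.coe_re, zero_mul, add_zero, sub_zero,
    Complex.one_im, Complex.one_re] at im1 im2 re1 re2
  have e1 : a * a' + b * c' = 1 := by
    have : (((a * a' + b * c' : ℤ) : ℝ)) = 1 := by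
      have h6 : (((a * a' + b * c' : ℤ) : ℝ) - 1) * t'.im = 0 := by linarith
      rcases mul_eq_zero.mp h6 with h7 | h7
      · linarith
      · exact absurd h7 him'.ne'
    exact_mod_cast this
  have e2 : c * a' + d * c' = 0 := by
    have : (((c * a' + d * c' : ℤ) : ℝ)) = 0 := by
      have h6 : (((c * a' + d * c' : ℤ) : ℝ)) * t'.im = 0 := by linarith
      rcases mul_eq_zero.mp h6 with h7 | h7
      · exact h7
      · exact absurd h7 him'.ne'
    exact_mod_cast this
  rw [e1] at re1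
  rw [e2] at re2
  have e3 : a * b' + b * d' = 0 := by
    have : (((a * b' + b * d' : ℤ) : ℝ)) = 0 := by
      have := re1
      push_cast at this ⊢
      linarith
    exact_mod_cast this
  have e4' : c * b' + d * d' = 1 := by
    have : (((c * b' + d * d' : ℤ) : ℝ)) = 1 := by
      have := re2
      push_cast at this ⊢
      linarith
    exact_mod_cast this
  have hdet : (a * d - b * c) * (a' * d' - b' * c') = 1 := by
    linear_combination (c * b' + d * d') * e1 + e4' - (a * b' + b * d') * e2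
  have hpos : 0 < a * d - b * c := by
    -- imaginary part of t' * |u|^2
    have h6 : (t' : ℂ) * (Complex.normSq u : ℂ) = (a * t + b) * (starRingEnd ℂ) u := by
      rw [← hab1, ← Complex.mul_conj]
      ring
    have h7 := congrArg Complex.im h6
    nth_rewrite 2 [hcd1] at h7
    have hns : 0 < Complex.normSq u := Complex.normSq_pos.mpr hu
    simp only [Complex.add_im, Complex.add_re, Complex.mul_im, Complex.mul_re, Complex.intCast_re,
      Complex.intCast_im, UpperHalfPlane.coe_im, UpperHalfPlane.coe_re, zero_mul, add_zero,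
      sub_zero, Complex.ofReal_re, Complex.ofReal_im, mul_zero, zero_add, Complex.conj_re,
      Complex.conj_im] at h7
    have h8 : 0 < ((a * d - b * c : ℤ) : ℝ) * t.im := by
      have h9 : ((a * d - b * c : ℤ) : ℝ) * t.im = t'.im * Complex.normSq u := by
        push_cast
        linarith
      rw [h9]
      positivity
    have h10 : 0 < ((a * d - b * c : ℤ) : ℝ) := by
      by_contra hneg
      have := mul_nonpos_of_nonpos_of_nonneg (not_lt.mp hneg) him.le
      linarith
    exact_mod_cast h10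
  have hone : a * d - b * c = 1 := by
    rcases Int.isUnit_iff.mp (IsUnit.of_mul_eq_one _ hdet) with h6 | h6
    · exact h6
    · rw [h6] at hpos
      norm_num at hpos
  obtain ⟨g, h00, h01, h10, h11⟩ : ∃ g : Matrix.SpecialLinearGroup (Fin 2) ℤ,
      g 0 0 = a ∧ g 0 1 = b ∧ g 1 0 = c ∧ g 1 1 = d :=
    ⟨⟨!![a, b; c, d], by rw [Matrix.det_fin_two_of]; exact hone⟩, rfl, rfl, rfl, rfl⟩
  refine ⟨g, ?_⟩
  apply UpperHalfPlane.ext
  rw [UpperHalfPlane.coe_specialLinearGroup_apply, h00, h01, h10, h11]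
  simp only [algebraMap_int_eq, eq_intCast, Complex.ofReal_intCast]
  rw [← hab1, ← hcd1]
  field_simp

end SSW
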