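import Pool.Agent.SSW.Targets

/-!
# MP_d74fca_nt: the invariants of the lattice `ℤt + ℤ` and the Eisenstein series (job SSW-LNK)
-/

open Polynomial
open scoped UpperHalfPlane

namespace SSW

open SSA SSP

namespace LNK_

open EisensteinSeries

lemma G_eq (t : ℍ) {k : ℕ} (hk : 3 ≤ k) :
    (LL t).G k = 2 * riemannZeta k * ModularForm.E hk t := by
  have h1 : ModularForm.E hk t = (1 / 2 : ℂ) * eisensteinSeries (N := 1) 0 k t := by
    rfl
  have h2 := tsum_eisSummand_eq_riemannZeta_mul_eisensteinSeries hk t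
  rw [h1]
  have h3 : (LL t).G k = ∑' v : Fin 2 → ℤ, eisSummand k v t := by
    unfold PeriodPair.G
    rw [← ((finTwoArrowEquiv ℤ).trans (LL t).latticeEquivProd.symm.toEquiv).tsum_eq]
    refine tsum_congr fun v => ?_
    have h4 : ((((finTwoArrowEquiv ℤ).trans (LL t).latticeEquivProd.symm.toEquiv) v : (LL t).lattice) : ℂ) =
        (v 0 : ℂ) * t + v 1 := by
      have h5 := (LL t).latticeEquiv_symm_apply (v 0, v 1)
      have h6 : ((((finTwoArrowEquiv ℤ).trans (LL t).latticeEquivProd.symm.toEquiv) v :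
          (LL t).lattice) : ℂ) = ((LL t).latticeEquivProd.symm (v 0, v 1) : ℂ) := rfl
      rw [h6, h5]
      simp [LL]
    rw [h4]
    unfold eisSummand
    rw [zpow_neg, zpow_natCast]
  rw [h3, h2]
  ring

lemma zeta_six : riemannZeta 6 = (Real.pi : ℂ) ^ 6 / 945 := by
  have h := riemannZeta_two_mul_nat (k := 3) (by norm_num)
  have hb : _root_.bernoulli 6 = 1 / 42 := by decide +kernel
  have e : (2 * ((3 : ℕ) : ℂ)) = 6 := by norm_num
  rw [e] at h
  rw [h]
  norm_num [hb, Nat.factorial]
  ring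

end LNK_

theorem p_LNK : T_LNK := by
  intro t
  constructor
  · have h := LNK_.G_eq t (k := 4) (by norm_num)
    unfold PeriodPair.g₂
    rw [h]
    push_cast
    rw [riemannZeta_four]
    ring
  · have h := LNK_.G_eq t (k := 6) (by norm_num)
    unfold PeriodPair.g₃
    rw [h]
    push_cast
    rw [LNK_.zeta_six]
    ring

end SSW
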