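import Pool.Agent.SSW.Targets

/-!
# MP_d74fca_nt, complex multiplication (helper22): `℘(cz)` is a rational function of `℘(z)` (helper4)
-/

open Polynomial Filter Topology

namespace SSW

open SSA SSP

namespace MUL_

/-- `z^2 ℘(z) → 1` -/
lemma tendsto_sq (L : PeriodPair) :
    Tendsto (fun z : ℂ => z ^ 2 * L.weierstrassP z) (𝓝[≠] 0) (𝓝 1) := by
  have h0 : (0 : ℂ) ∈ L.lattice := zero_mem _
  have hc : ContinuousAt (fun z : ℂ => z ^ 2 * L.weierstrassPExcept 0 z + 1) 0 := by
    have h1 : ContinuousAt (L.weierstrassPExcept 0) 0 :=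
      (L.analyticAt_weierstrassPExcept 0).continuousAt
    fun_prop
  have h2 : Tendsto (fun z : ℂ => z ^ 2 * L.weierstrassPExcept 0 z + 1) (𝓝[≠] 0) (𝓝 1) := by
    have h3 := hc.tendsto.mono_left (nhdsWithin_le_nhds (s := {(0 : ℂ)}ᶜ))
    simpa using h3
  refine h2.congr' ?_
  filter_upwards [self_mem_nhdsWithin] with z hz
  have h4 := L.ite_eq_one_sub_sq_mul_weierstrassP 0 h0 z
  have hz' : z ≠ 0 := hz
  rw [if_neg hz'] at h4
  simp only [sub_zero] at h4
  rw [h4]
  simp

/-- growth of a polynomial in `℘` -/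
lemma tendsto_poly (L : PeriodPair) (Q : ℂ[X]) (n : ℕ) (hn : Q.natDegree ≤ n) :
    Tendsto (fun z : ℂ => z ^ (2 * n) * Q.eval (L.weierstrassP z)) (𝓝[≠] 0)
      (𝓝 (Q.coeff n)) := by
  have h1 : ∀ z : ℂ, z ^ (2 * n) * Q.eval (L.weierstrassP z) =
      ∑ i ∈ Finset.range (n + 1), Q.coeff i * (z ^ 2) ^ (n - i) * (z ^ 2 * L.weierstrassP z) ^ i := by
    intro z
    rw [Polynomial.eval_eq_sum_range' (lt_of_le_of_lt hn (Nat.lt_succ_self n)), Finset.mul_sum]
    refine Finset.sum_congr rfl fun i hi => ?_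
    have hi' : i ≤ n := Nat.lt_succ_iff.mp (Finset.mem_range.mp hi)
    have h2 : z ^ (2 * n) = (z ^ 2) ^ (n - i) * (z ^ 2) ^ i := by
      rw [← pow_add, Nat.sub_add_cancel hi', pow_mul]
    rw [h2, mul_pow]
    ring
  have h3 : ∀ i ∈ Finset.range (n + 1), Tendsto (fun z : ℂ =>
      Q.coeff i * (z ^ 2) ^ (n - i) * (z ^ 2 * L.weierstrassP z) ^ i) (𝓝[≠] 0)
      (𝓝 (Q.coeff i * (0 ^ 2) ^ (n - i) * 1 ^ i)) := by
    intro i _
    refine Tendsto.mul ?_ ((tendsto_sq L).pow i)
    have hc : ContinuousAt (fun z : ℂ => Q.coeff i * (z ^ 2) ^ (n - i)) 0 := by fun_prop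
    exact hc.tendsto.mono_left nhdsWithin_le_nhds
  have h4 := tendsto_finsetSum (Finset.range (n + 1)) h3
  have h5 : ∑ i ∈ Finset.range (n + 1), Q.coeff i * ((0 : ℂ) ^ 2) ^ (n - i) * 1 ^ i = Q.coeff n := by
    rw [Finset.sum_eq_single n]
    · simp
    · intro i hi hne
      have hi' : i ≤ n := Nat.lt_succ_iff.mp (Finset.mem_range.mp hi)
      have h6 : n - i ≠ 0 := by omega
      have h7 : ((0 : ℂ) ^ 2) ^ (n - i) = 0 := by
        rw [zero_pow two_ne_zero, zero_pow h6]
      rw [h7]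
      ring
    · intro h
      exact absurd (Finset.mem_range.mpr (Nat.lt_succ_self n)) h
  rw [h5] at h4
  exact h4.congr fun z => (h1 z).symm

lemma mulc_tendsto {c : ℂ} (hc : c ≠ 0) : Tendsto (fun z : ℂ => c * z) (𝓝[≠] 0) (𝓝[≠] 0) := by
  rw [tendsto_nhdsWithin_iff]
  refine ⟨?_, ?_⟩
  · have h : ContinuousAt (fun z : ℂ => c * z) 0 := by fun_prop
    have h2 := h.tendsto.mono_left (nhdsWithin_le_nhds (s := {(0 : ℂ)}ᶜ))
    simpa using h2
  · filter_upwards [self_mem_nhdsWithin] with z hz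
    exact mul_ne_zero hc hz

/-- representatives of `c⁻¹L / L` different from the trivial class -/
lemma exists_reps (L : PeriodPair) (c : ℂ) (hc : c ≠ 0)
    (hL : ∀ l ∈ L.lattice, c * l ∈ L.lattice) :
    ∃ W : Finset ℂ, (∀ w ∈ W, c * w ∈ L.lattice ∧ w ∉ L.lattice) ∧
      (∀ z, c * z ∈ L.lattice → z ∉ L.lattice → ∃ w ∈ W, z - w ∈ L.lattice) := by
  set D := ZSpan.fundamentalDomain L.basis with hD
  have hDb : Bornology.IsBounded D := ZSpan.fundamentalDomain_isBounded L.basis
  set W0 : Set ℂ := {w | w ∈ D ∧ c * w ∈ L.lattice ∧ w ∉ L.lattice} with hW0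
  have hfin : W0.Finite := by
    have h1 : Bornology.IsBounded ((fun z : ℂ => c * z) '' D) := by
      obtain ⟨R, hR⟩ := hDb.exists_norm_le
      rw [isBounded_iff_forall_norm_le]
      refine ⟨‖c‖ * R, ?_⟩
      rintro _ ⟨z, hz, rfl⟩
      rw [norm_mul]
      exact mul_le_mul_of_nonneg_left (hR z hz) (norm_nonneg c)
    have h2 := ZSpan.setFinite_inter L.basis h1
    rw [← L.lattice_eq_span_range_basis] at h2
    have h3 : ((fun z : ℂ => c * z) '' W0).Finite := by
      refine h2.subset ?_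
      rintro _ ⟨z, hz, rfl⟩
      exact ⟨⟨z, hz.1, rfl⟩, hz.2.1⟩
    refine Set.Finite.of_finite_image h3 ?_
    intro x _ y _ hxy
    exact mul_left_cancel₀ hc hxy
  refine ⟨hfin.toFinset, ?_, ?_⟩
  · intro w hw
    rw [Set.Finite.mem_toFinset] at hw
    exact hw.2
  · intro z hz1 hz2
    have hfl : ((ZSpan.floor L.basis z : Submodule.span ℤ (Set.range L.basis)) : ℂ) ∈ L.lattice := by
      rw [L.lattice_eq_span_range_basis]
      exact (ZSpan.floor L.basis z).2
    refine ⟨ZSpan.fract L.basis z, ?_, ?_⟩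
    · rw [Set.Finite.mem_toFinset]
      refine ⟨ZSpan.fract_mem_fundamentalDomain L.basis z, ?_, ?_⟩
      · rw [ZSpan.fract_apply, mul_sub]
        exact sub_mem hz1 (hL _ hfl)
      · intro h
        apply hz2
        have h3 := add_mem h hfl
        rwa [ZSpan.fract_apply, sub_add_cancel] at h3
    · rw [ZSpan.fract_apply, sub_sub_cancel]
      exact hfl

/-- an analytic function vanishing at a point -/
lemma factor_one {f : ℂ → ℂ} {z₀ : ℂ} (hf : AnalyticAt ℂ f z₀) (h0 : f z₀ = 0) :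
    ∃ g, AnalyticAt ℂ g z₀ ∧ ∀ᶠ z in 𝓝 z₀, f z = (z - z₀) * g z := by
  have h1 : ((1 : ℕ) : ℕ∞) ≤ analyticOrderAt f z₀ := by
    rw [natCast_le_analyticOrderAt_iff_iteratedDeriv_eq_zero hf]
    intro i hi
    have : i = 0 := by omega
    subst this
    simpa using h0
  obtain ⟨g, hg, hfg⟩ := (natCast_le_analyticOrderAt hf).mp h1
  exact ⟨g, hg, by simpa using hfg⟩

/-- an analytic function with a double zero at a point -/
lemma factor_two {f : ℂ → ℂ} {z₀ : ℂ} (hf : AnalyticAt ℂ f z₀) (h0 : f z₀ = 0)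
    (h0' : deriv f z₀ = 0) :
    ∃ g, AnalyticAt ℂ g z₀ ∧ ∀ᶠ z in 𝓝 z₀, f z = (z - z₀) ^ 2 * g z := by
  have h1 : ((2 : ℕ) : ℕ∞) ≤ analyticOrderAt f z₀ := by
    rw [natCast_le_analyticOrderAt_iff_iteratedDeriv_eq_zero hf]
    intro i hi
    have : i = 0 ∨ i = 1 := by omega
    rcases this with rfl | rfl
    · simpa using h0
    · simpa [iteratedDeriv_one] using h0'
  obtain ⟨g, hg, hfg⟩ := (natCast_le_analyticOrderAt hf).mp h1
  exact ⟨g, hg, by simpa using hfg⟩

/-- the product over the representatives has a double zero at the poles of `℘(cz)` -/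
lemma prod_factor (L : PeriodPair) (c : ℂ) (hL : ∀ l ∈ L.lattice, c * l ∈ L.lattice)
    (W : Finset ℂ) (hW1 : ∀ w ∈ W, c * w ∈ L.lattice ∧ w ∉ L.lattice)
    (hW2 : ∀ z, c * z ∈ L.lattice → z ∉ L.lattice → ∃ w ∈ W, z - w ∈ L.lattice)
    {z₀ : ℂ} (hz : z₀ ∉ L.lattice) (hcz : c * z₀ ∈ L.lattice) :
    ∃ g, AnalyticAt ℂ g z₀ ∧ ∀ᶠ z in 𝓝 z₀,
      ∏ w ∈ W, (L.weierstrassP z - L.weierstrassP w) = (z - z₀) ^ 2 * g z := by
  classical
  have hPan : AnalyticAt ℂ L.weierstrassP z₀ := L.analyticOnNhd_weierstrassP z₀ hz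
  have hfan : ∀ w, AnalyticAt ℂ (fun z => L.weierstrassP z - L.weierstrassP w) z₀ := fun w =>
    hPan.sub analyticAt_const
  have hprod : ∀ V : Finset ℂ,
      AnalyticAt ℂ (fun z => ∏ w ∈ V, (L.weierstrassP z - L.weierstrassP w)) z₀ := by
    intro V
    exact Finset.analyticAt_fun_prod V fun w _ => hfan w
  obtain ⟨w0, hw0, hd⟩ := hW2 z₀ hcz hz
  have hval : L.weierstrassP z₀ = L.weierstrassP w0 := by
    have h1 := L.weierstrassP_add_coe w0 ⟨z₀ - w0, hd⟩
    simpa using h1
  by_cases h2 : w0 + w0 ∈ L.lattice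
  · -- double zero of one factor
    have hder : deriv (fun z => L.weierstrassP z - L.weierstrassP w0) z₀ = 0 := by
      rw [deriv_sub_const_fun, L.deriv_weierstrassP]
      have h3 : L.derivWeierstrassP z₀ = L.derivWeierstrassP w0 := by
        have h1 := L.derivWeierstrassP_add_coe w0 ⟨z₀ - w0, hd⟩
        simpa using h1
      have h4 : L.derivWeierstrassP w0 = L.derivWeierstrassP (-w0) := by
        have h1 := L.derivWeierstrassP_add_coe (-w0) ⟨w0 + w0, h2⟩
        simpa using h1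
      rw [L.derivWeierstrassP_neg] at h4
      rw [h3]
      linear_combination (1 / 2 : ℂ) * h4
    obtain ⟨g, hg, hgf⟩ := factor_two (hfan w0) (by simp [hval]) hder
    refine ⟨fun z => g z * ∏ w ∈ W.erase w0, (L.weierstrassP z - L.weierstrassP w),
      hg.mul (hprod _), ?_⟩
    filter_upwards [hgf] with z hz'
    rw [← Finset.mul_prod_erase W _ hw0, hz']
    ring
  · -- two equal factors
    have hn1 : c * (-w0) ∈ L.lattice := by
      rw [mul_neg]
      exact neg_mem (hW1 w0 hw0).1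
    have hn2 : -w0 ∉ L.lattice := fun h => (hW1 w0 hw0).2 (by simpa using neg_mem h)
    obtain ⟨w1, hw1, hd1⟩ := hW2 (-w0) hn1 hn2
    have hne : w1 ≠ w0 := by
      rintro rfl
      apply h2
      have h3 := neg_mem hd1
      have h4 : -(-w1 - w1) = w1 + w1 := by ring
      rwa [h4] at h3
    have hval1 : L.weierstrassP w1 = L.weierstrassP w0 := by
      have h1 := L.weierstrassP_add_coe w1 ⟨-w0 - w1, hd1⟩
      have h3 : L.weierstrassP (-w0) = L.weierstrassP w1 := by simpa using h1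
      rw [← h3, L.weierstrassP_neg]
    obtain ⟨g, hg, hgf⟩ := factor_one (hfan w0) (by simp [hval])
    refine ⟨fun z => g z * g z *
      ∏ w ∈ (W.erase w0).erase w1, (L.weierstrassP z - L.weierstrassP w),
      (hg.mul hg).mul (hprod _), ?_⟩
    filter_upwards [hgf] with z hz'
    rw [← Finset.mul_prod_erase W _ hw0,
      ← Finset.mul_prod_erase (W.erase w0) _ (Finset.mem_erase.mpr ⟨hne, hw1⟩), hval1, hz']
    ring

/-- `(z-z₀)^2 ℘(cz)` is analytic at a pole of `℘(cz)` -/
lemma pole_factor (L : PeriodPair) {c : ℂ} (hc : c ≠ 0) {z₀ : ℂ} (hcz : c * z₀ ∈ L.lattice) :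
    ∃ F, AnalyticAt ℂ F z₀ ∧ ∀ᶠ z in 𝓝[≠] z₀,
      (z - z₀) ^ 2 * L.weierstrassP (c * z) = F z := by
  refine ⟨fun z => (z - z₀) ^ 2 * (L.weierstrassPExcept (c * z₀) (c * z) - 1 / (c * z₀) ^ 2) +
    1 / c ^ 2, ?_, ?_⟩
  · have h1 : AnalyticAt ℂ (L.weierstrassPExcept (c * z₀)) (c * z₀) :=
      L.analyticAt_weierstrassPExcept (c * z₀)
    have h2 : AnalyticAt ℂ (fun z => L.weierstrassPExcept (c * z₀) (c * z)) z₀ :=
      AnalyticAt.fun_comp (g := L.weierstrassPExcept (c * z₀)) (f := fun z => c * z) h1 (by fun_prop)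
    fun_prop
  · filter_upwards [self_mem_nhdsWithin] with z hz
    have hz' : z - z₀ ≠ 0 := sub_ne_zero.mpr hz
    have h1 := L.weierstrassPExcept_add ⟨c * z₀, hcz⟩ (c * z)
    rw [← h1]
    have h2 : c * z - c * z₀ = c * (z - z₀) := by ring
    simp only [h2]
    field_simp
    ring

end MUL_

open MUL_ in
theorem p_MUL (h2 : T_FIB) (h3 : T_EVE) : T_MUL := by
  intro L c hc hL
  obtain ⟨W, hW1, hW2⟩ := exists_reps L c hc hL
  -- the function
  set Q : ℂ → ℂ := fun z => ∏ w ∈ W, (L.weierstrassP z - L.weierstrassP w) with hQ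
  set G : ℂ → ℂ := fun z => L.weierstrassP (c * z) * Q z with hG
  have hnot : ∀ z, c * z ∉ L.lattice → z ∉ L.lattice := fun z h h' => h (hL z h')
  have hPan : ∀ z, z ∉ L.lattice → AnalyticAt ℂ L.weierstrassP z := fun z hz =>
    L.analyticOnNhd_weierstrassP z hz
  have hQan : ∀ z, z ∉ L.lattice → AnalyticAt ℂ Q z := by
    intro z hz
    exact Finset.analyticAt_fun_prod W fun w _ => (hPan z hz).sub analyticAt_const
  have hcan : ∀ z, c * z ∉ L.lattice → AnalyticAt ℂ (fun z => L.weierstrassP (c * z)) z := by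
    intro z hz
    exact AnalyticAt.fun_comp (g := L.weierstrassP) (f := fun z => c * z) (hPan _ hz) (by fun_prop)
  have hmer : Meromorphic G := by
    intro z
    have m1 : MeromorphicAt (fun z => L.weierstrassP (c * z)) z :=
      MeromorphicAt.comp_analyticAt (f := L.weierstrassP) (g := fun z => c * z)
        (L.meromorphic_weierstrassP _) (by fun_prop)
    have m2 : MeromorphicAt Q z := by
      have : ∀ w ∈ W, MeromorphicAt (fun z => L.weierstrassP z - L.weierstrassP w) z := fun w _ =>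
        (L.meromorphic_weierstrassP z).sub (MeromorphicAt.const _ _)
      exact MeromorphicAt.fun_prod this
    exact m1.mul m2
  have hord : ∀ z, z ∉ L.lattice → 0 ≤ meromorphicOrderAt G z := by
    intro z hz
    by_cases hcz : c * z ∈ L.lattice
    · obtain ⟨g, hg, hgf⟩ := prod_factor L c hL W hW1 hW2 hz hcz
      obtain ⟨F, hF, hFf⟩ := pole_factor L hc hcz
      have h4 : G =ᶠ[𝓝[≠] z] fun x => F x * g x := by
        filter_upwards [hFf, nhdsWithin_le_nhds hgf] with x hx1 hx2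
        have h5 : Q x = (x - z) ^ 2 * g x := hx2
        simp only [hG]
        rw [h5, ← hx1]
        ring
      rw [meromorphicOrderAt_congr h4]
      exact (hF.mul hg).meromorphicOrderAt_nonneg
    · exact ((hcan z hcz).mul (hQan z hz)).meromorphicOrderAt_nonneg
  have hper : ∀ z, ∀ l ∈ L.lattice, G (z + l) = G z := by
    intro z l hl
    have e1 : L.weierstrassP (c * (z + l)) = L.weierstrassP (c * z) := by
      rw [mul_add]
      exact L.weierstrassP_add_coe (c * z) ⟨c * l, hL l hl⟩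
    have e2 : L.weierstrassP (z + l) = L.weierstrassP z := L.weierstrassP_add_coe z ⟨l, hl⟩
    simp only [hG, hQ]
    rw [e1, e2]
  have heven : ∀ z, G (-z) = G z := by
    intro z
    simp only [hG, hQ]
    rw [mul_neg, L.weierstrassP_neg, L.weierstrassP_neg]
  obtain ⟨A, hA⟩ := h3 L G hmer hord hper heven
  set B : ℂ[X] := ∏ w ∈ W, (X - C (L.weierstrassP w)) with hB
  have hBm : B.Monic := monic_prod_of_monic _ _ fun w _ => monic_X_sub_C _
  have hBev : ∀ z, B.eval (L.weierstrassP z) = Q z := by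
    intro z
    simp only [hB, hQ, eval_prod, eval_sub, eval_X, eval_C]
  have key : ∀ z, c * z ∉ L.lattice → L.weierstrassP (c * z) * B.eval (L.weierstrassP z) =
      A.eval (L.weierstrassP z) := by
    intro z hz
    have hz' := hnot z hz
    have c1 : ContinuousAt G z := ((hcan z hz).mul (hQan z hz')).continuousAt
    have c2 : ContinuousAt (fun z => A.eval (L.weierstrassP z)) z := by
      have h5 : ContinuousAt L.weierstrassP z := (hPan z hz').continuousAt
      exact ContinuousAt.comp (g := fun x => A.eval x) A.continuous.continuousAt h5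
    have h6 := hA z hz'
    have t1 : Tendsto G (𝓝[≠] z) (𝓝 (G z)) := c1.tendsto.mono_left nhdsWithin_le_nhds
    have t2 : Tendsto G (𝓝[≠] z) (𝓝 (A.eval (L.weierstrassP z))) := by
      refine (c2.tendsto.mono_left nhdsWithin_le_nhds).congr' ?_
      filter_upwards [h6] with w hw
      exact hw.symm
    have h7 := tendsto_nhds_unique t1 t2
    rw [hBev]
    exact h7
  refine ⟨A, B, hBm.ne_zero, ?_, ?_⟩
  · -- degrees
    by_contra hcon
    push Not at hcon
    set n := B.natDegree with hn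
    have t1 := tendsto_poly L B n le_rfl
    have t2 := tendsto_poly L A n hcon
    have t3 : Tendsto (fun z : ℂ => (c * z) ^ 2 * L.weierstrassP (c * z)) (𝓝[≠] 0) (𝓝 1) :=
      (tendsto_sq L).comp (mulc_tendsto hc)
    have t4 : Tendsto (fun z : ℂ => (c * z) ^ 2) (𝓝[≠] 0) (𝓝 0) := by
      have h : ContinuousAt (fun z : ℂ => (c * z) ^ 2) 0 := by fun_prop
      have h2 := h.tendsto.mono_left (nhdsWithin_le_nhds (s := {(0 : ℂ)}ᶜ))
      simpa using h2
    have t5 := t3.mul t1
    have t6 := t4.mul t2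
    have hev : ∀ᶠ z in 𝓝[≠] (0 : ℂ), c * z ∉ L.lattice := by
      have h8 : (↑L.lattice \ {(0 : ℂ)})ᶜ ∈ 𝓝 (0 : ℂ) :=
        L.compl_lattice_sdiff_singleton_mem_nhds 0
      have h9 := (mulc_tendsto hc).mono_right nhdsWithin_le_nhds |>.eventually h8
      filter_upwards [h9, self_mem_nhdsWithin] with z hz hz0 hmem
      exact hz ⟨hmem, mul_ne_zero hc hz0⟩
    have h10 : (fun z : ℂ => (c * z) ^ 2 * L.weierstrassP (c * z) *
        (z ^ (2 * n) * B.eval (L.weierstrassP z))) =ᶠ[𝓝[≠] 0]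
        fun z => (c * z) ^ 2 * (z ^ (2 * n) * A.eval (L.weierstrassP z)) := by
      filter_upwards [hev] with z hz
      rw [← key z hz]
      ring
    have h11 := tendsto_nhds_unique (t5.congr' h10) t6
    have h12 : B.coeff n = 1 := hBm.coeff_natDegree
    rw [h12] at h11
    simp at h11
  · intro z hz
    have hz' := hnot z hz
    have hne : B.eval (L.weierstrassP z) ≠ 0 := by
      rw [hBev]
      simp only [hQ]
      rw [Finset.prod_ne_zero_iff]
      intro w hw h0
      have h13 := h2 L z w hz' (hW1 w hw).2 (sub_eq_zero.mp h0)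
      apply hz
      rcases h13 with h | h
      · have h14 := add_mem (hL _ h) (hW1 w hw).1
        rwa [← mul_add, sub_add_cancel] at h14
      · have h14 := sub_mem (hL _ h) (hW1 w hw).1
        rwa [← mul_sub, add_sub_cancel_right] at h14
    exact ⟨hz', hne, by rw [← key z hz, mul_div_cancel_right₀ _ hne]⟩

end SSW
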