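import Pool.Agent.SSW.Targets

/-!
# NRM: normal form of the model of a lattice
-/

set_option autoImplicit false

open Polynomial
open scoped UpperHalfPlane

namespace SSW

open SSA SSP

theorem p_NRM (h1 : T_LNK) : T_NRM := by
  intro t
  obtain ⟨hg2, hg3⟩ := h1 t
  have hΔ0 := ModularForm.discriminant_ne_zero t
  have hΔ := ModularForm.discriminant_eq_E₄_cube_sub_E₆_sq t
  obtain ⟨d, hd⟩ : ∃ d : ℂ, d = ModularForm.discriminant t := ⟨_, rfl⟩
  obtain ⟨e4, h4⟩ : ∃ d : ℂ, d = ModularForm.E₄ t := ⟨_, rfl⟩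
  obtain ⟨e6, h6⟩ : ∃ d : ℂ, d = ModularForm.E₆ t := ⟨_, rfl⟩
  obtain ⟨P, hP⟩ : ∃ d : ℂ, d = (Real.pi : ℂ) := ⟨_, rfl⟩
  have hP0 : P ≠ 0 := by
    rw [hP]
    exact_mod_cast Real.pi_ne_zero
  have hjt : jt t = e4 ^ 3 / d := by
    rw [h4, hd]
    rfl
  have haw : aw (LL t) = -(P ^ 4 * e4 / 3) := by
    unfold aw
    rw [hg2, ← h4, ← hP]
    ring
  have hbw : bw (LL t) = -(2 * P ^ 6 * e6 / 27) := by
    unfold bw
    rw [hg3, ← h6, ← hP]
    ring
  rw [← hd] at hΔ0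
  rw [← hd, ← h4, ← h6] at hΔ
  have hrel : e4 ^ 3 - e6 ^ 2 = 1728 * d := by
    rw [hΔ]
    ring
  refine ⟨⟨two_ne_zero, three_ne_zero, ?_⟩, ?_⟩
  · rw [haw, hbw]
    have e : 4 * (-(P ^ 4 * e4 / 3)) ^ 3 + 27 * (-(2 * P ^ 6 * e6 / 27)) ^ 2 = -256 * P ^ 12 * d := by
      linear_combination (-(4 / 27) * P ^ 12) * hrel
    rw [e]
    exact mul_ne_zero (mul_ne_zero (by norm_num) (pow_ne_zero _ hP0)) hΔ0
  · intro hj0 hj1
    rw [hjt] at hj0 hj1 ⊢
    have he4 : e4 ≠ 0 := by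
      intro h0
      rw [h0] at hj0
      simp at hj0
    have hj2 : e4 ^ 3 / d - 1728 = e6 ^ 2 / d := by
      field_simp
      linear_combination hrel
    have he6 : e6 ≠ 0 := by
      intro h0
      rw [h0] at hj2
      apply hj1
      rw [sub_eq_iff_eq_add] at hj2
      rw [hj2]
      simp
    refine ⟨3 * e4 * e6 / (d * P ^ 2), ?_, ?_, ?_⟩
    · exact div_ne_zero (mul_ne_zero (mul_ne_zero (by norm_num) he4) he6)
        (mul_ne_zero hΔ0 (pow_ne_zero _ hP0))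
    · unfold aj
      rw [hj2, haw]
      field_simp
    · unfold bj
      rw [hj2, hbw]
      field_simp
      ring

end SSW
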