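import Pool.Agent.SSW.Targets

/-!
# RIG: the invariants `g₂`, `g₃` determine the lattice
-/

set_option autoImplicit false

open Filter Topology

namespace SSW

namespace RIG_

open PeriodPair

theorem P_eq (L : PeriodPair) (z : ℂ) :
    L.weierstrassP z = L.weierstrassPExcept 0 z + 1 / z ^ 2 := by
  have h := L.weierstrassPExcept_add 0 z
  rw [← h]
  simp

theorem P'_eq (L : PeriodPair) (z : ℂ) :
    L.derivWeierstrassP z = L.derivWeierstrassPExcept 0 z - 2 / z ^ 3 := by
  have h := L.derivWeierstrassPExcept_sub 0 z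
  rw [← h]
  simp

theorem hasDerivAt_P (L : PeriodPair) {z : ℂ} (hz : z ∉ L.lattice) :
    HasDerivAt L.weierstrassP (L.derivWeierstrassP z) z := by
  have h1 : DifferentiableAt ℂ L.weierstrassP z :=
    (L.analyticOnNhd_weierstrassP z hz).differentiableAt
  have h2 := h1.hasDerivAt
  rw [L.deriv_weierstrassP] at h2
  exact h2

/-- a punctured neighbourhood of a point avoids the lattice -/
theorem punctured (L : PeriodPair) (x : ℂ) : ∀ᶠ z in 𝓝[≠] x, z ∉ L.lattice := by
  have h := L.compl_lattice_sdiff_singleton_mem_nhds x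
  filter_upwards [nhdsWithin_le_nhds h, self_mem_nhdsWithin] with z h1 h2 h3
  exact h1 ⟨h3, h2⟩

/-- the local part -/
theorem local_eq (L L' : PeriodPair) (h2 : L.g₂ = L'.g₂) (h3 : L.g₃ = L'.g₃) :
    ∀ᶠ z in 𝓝 (0 : ℂ), L.weierstrassP z - L'.weierstrassP z = 0 := by
  set u := L.weierstrassPExcept 0 with hu
  set v := L'.weierstrassPExcept 0 with hv
  set u' := L.derivWeierstrassPExcept 0 with hu'
  set v' := L'.derivWeierstrassPExcept 0 with hv'
  have hua : AnalyticAt ℂ u 0 := L.analyticAt_weierstrassPExcept 0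
  have hva : AnalyticAt ℂ v 0 := L'.analyticAt_weierstrassPExcept 0
  have hua' : AnalyticAt ℂ u' 0 := L.analyticAt_derivWeierstrassPExcept 0
  have hva' : AnalyticAt ℂ v' 0 := L'.analyticAt_derivWeierstrassPExcept 0
  set w : ℂ → ℂ := fun z => L.weierstrassP z - L'.weierstrassP z with hw
  have hwuv : w = fun z => u z - v z := by
    funext z
    rw [hw]
    simp only
    rw [P_eq, P_eq]
    ring
  have hwa : AnalyticAt ℂ w 0 := by
    rw [hwuv]
    exact hua.sub hva
  by_contra hcon
  obtain ⟨k, h, hh, h0, heq⟩ := hwa.exists_eventuallyEq_pow_smul_nonzero_iff.2 hcon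
  simp only [sub_zero, smul_eq_mul] at heq
  set F : ℂ → ℂ := fun z => (k * h z + z * deriv h z) *
    ((-2 + z ^ 3 * u' z) + (-2 + z ^ 3 * v' z)) with hF
  set G : ℂ → ℂ := fun z => h z * (4 * ((1 + z ^ 2 * u z) ^ 2 +
    (1 + z ^ 2 * u z) * (1 + z ^ 2 * v z) + (1 + z ^ 2 * v z) ^ 2) - L.g₂ * z ^ 4) with hG
  have hFG : ∀ᶠ z in 𝓝[≠] (0 : ℂ), F z = G z := by
    have e1 := heq.eventually_nhds
    have e2 := hh.eventually_analyticAt
    filter_upwards [punctured L 0, punctured L' 0, nhdsWithin_le_nhds e1,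
      nhdsWithin_le_nhds e2, self_mem_nhdsWithin] with z hz hz' hz1 hz2 hz0
    have hz0' : z ≠ 0 := hz0
    -- the derivative of `w`
    have d1 : HasDerivAt w (L.derivWeierstrassP z - L'.derivWeierstrassP z) z :=
      (hasDerivAt_P L hz).sub (hasDerivAt_P L' hz')
    have d2 : HasDerivAt (fun z => z ^ k * h z)
        ((k : ℂ) * z ^ (k - 1) * h z + z ^ k * deriv h z) z :=
      (hasDerivAt_pow k z).mul hz2.differentiableAt.hasDerivAt
    have d3 := (d2.congr_of_eventuallyEq hz1).unique d1
    have d4 : z * (L.derivWeierstrassP z - L'.derivWeierstrassP z) =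
        z ^ k * (k * h z + z * deriv h z) := by
      rw [← d3]
      rcases Nat.eq_zero_or_pos k with hk | hk
      · subst hk
        simp
      · obtain ⟨m, rfl⟩ : ∃ m, k = m + 1 := ⟨k - 1, by omega⟩
        rw [Nat.add_sub_cancel]
        ring
    have d5 : L.weierstrassP z - L'.weierstrassP z = z ^ k * h z := hz1.self_of_nhds
    -- the differential equations
    have o1 := L.derivWeierstrassP_sq z hz
    have o2 := L'.derivWeierstrassP_sq z hz'
    rw [← h2, ← h3] at o2
    have o3 : (L.derivWeierstrassP z - L'.derivWeierstrassP z) *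
        (L.derivWeierstrassP z + L'.derivWeierstrassP z) =
        (L.weierstrassP z - L'.weierstrassP z) * (4 * (L.weierstrassP z ^ 2 +
          L.weierstrassP z * L'.weierstrassP z + L'.weierstrassP z ^ 2) - L.g₂) := by
      linear_combination o1 - o2
    have p1 : z ^ 2 * L.weierstrassP z = 1 + z ^ 2 * u z := by
      rw [P_eq, mul_add, mul_one_div, div_self (pow_ne_zero 2 hz0')]
      ring
    have p2 : z ^ 2 * L'.weierstrassP z = 1 + z ^ 2 * v z := by
      rw [P_eq, mul_add, mul_one_div, div_self (pow_ne_zero 2 hz0')]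
      ring
    have p3 : z ^ 3 * L.derivWeierstrassP z = -2 + z ^ 3 * u' z := by
      rw [P'_eq, mul_sub, mul_div_cancel₀ _ (pow_ne_zero 3 hz0')]
      ring
    have p4 : z ^ 3 * L'.derivWeierstrassP z = -2 + z ^ 3 * v' z := by
      rw [P'_eq, mul_sub, mul_div_cancel₀ _ (pow_ne_zero 3 hz0')]
      ring
    have hzk : z ^ k ≠ 0 := pow_ne_zero k hz0'
    apply mul_left_cancel₀ hzk
    rw [hF, hG]
    simp only
    rw [← p1, ← p2, ← p3, ← p4]
    have q1 : z ^ k * ((k * h z + z * deriv h z) *
        (z ^ 3 * L.derivWeierstrassP z + z ^ 3 * L'.derivWeierstrassP z)) =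
        z ^ 4 * ((L.derivWeierstrassP z - L'.derivWeierstrassP z) *
        (L.derivWeierstrassP z + L'.derivWeierstrassP z)) := by
      have : z ^ k * ((k * h z + z * deriv h z) *
        (z ^ 3 * L.derivWeierstrassP z + z ^ 3 * L'.derivWeierstrassP z)) =
        (z ^ k * (k * h z + z * deriv h z)) *
        (z ^ 3 * (L.derivWeierstrassP z + L'.derivWeierstrassP z)) := by ring
      rw [this, ← d4]
      ring
    rw [q1, o3, d5]
    ring
  have hFc : ContinuousAt F 0 := by
    have c1 := hh.continuousAt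
    have c2 := hh.deriv.continuousAt
    have c3 := hua'.continuousAt
    have c4 := hva'.continuousAt
    rw [hF]
    fun_prop
  have hGc : ContinuousAt G 0 := by
    have c1 := hh.continuousAt
    have c3 := hua.continuousAt
    have c4 := hva.continuousAt
    rw [hG]
    fun_prop
  have hlim : F 0 = G 0 := by
    have t1 : Tendsto F (𝓝[≠] 0) (𝓝 (F 0)) := hFc.tendsto.mono_left nhdsWithin_le_nhds
    have t2 : Tendsto G (𝓝[≠] 0) (𝓝 (G 0)) := hGc.tendsto.mono_left nhdsWithin_le_nhds
    exact tendsto_nhds_unique (t1.congr' hFG) t2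
  rw [hF, hG] at hlim
  simp only [zero_mul, add_zero, ne_eq, OfNat.ofNat_ne_zero, not_false_eq_true, zero_pow,
    mul_zero, sub_zero, one_pow, mul_one] at hlim
  have h5 : h 0 * (((4 * k + 12 : ℕ) : ℂ)) = 0 := by
    push_cast
    linear_combination -hlim
  rcases mul_eq_zero.1 h5 with h6 | h6
  · exact h0 h6
  · rw [Nat.cast_eq_zero] at h6
    omega

theorem countable_lattice (L : PeriodPair) : (L.lattice : Set ℂ).Countable :=
  Set.countable_coe_iff.1 (L.latticeEquivProd.toEquiv.countable_iff.2 inferInstance)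

/-- the functions agree off the two lattices -/
theorem global_eq (L L' : PeriodPair) (h2 : L.g₂ = L'.g₂) (h3 : L.g₃ = L'.g₃) (z : ℂ)
    (hz : z ∉ L.lattice) (hz' : z ∉ L'.lattice) : L.weierstrassP z = L'.weierstrassP z := by
  set Ω : Set ℂ := ((L.lattice : Set ℂ) ∪ (L'.lattice : Set ℂ))ᶜ with hΩ
  have hconn : IsPreconnected Ω := by
    have h4 : 1 < Module.rank ℝ ℂ := by
      rw [Complex.rank_real_complex]
      norm_num
    exact (((countable_lattice L).union
      (countable_lattice L')).isConnected_compl_of_one_lt_rank h4).isPreconnected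
  have ha : AnalyticOnNhd ℂ L.weierstrassP Ω := L.analyticOnNhd_weierstrassP.mono
    (Set.compl_subset_compl.2 Set.subset_union_left)
  have ha' : AnalyticOnNhd ℂ L'.weierstrassP Ω := L'.analyticOnNhd_weierstrassP.mono
    (Set.compl_subset_compl.2 Set.subset_union_right)
  -- a point where the functions agree locally
  have h4 := (local_eq L L' h2 h3).eventually_nhds
  have h5 : ∀ᶠ x in 𝓝[≠] (0 : ℂ), x ∈ Ω ∧ ∀ᶠ y in 𝓝 x, L.weierstrassP y - L'.weierstrassP y = 0 := by
    filter_upwards [punctured L 0, punctured L' 0, nhdsWithin_le_nhds h4] with x hx hx' hx1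
    refine ⟨?_, hx1⟩
    rw [hΩ, Set.mem_compl_iff, Set.mem_union, not_or]
    exact ⟨hx, hx'⟩
  obtain ⟨x, hx, hx1⟩ := h5.exists
  have h6 : L.weierstrassP =ᶠ[𝓝 x] L'.weierstrassP := by
    filter_upwards [hx1] with y hy
    exact sub_eq_zero.1 hy
  have h7 := ha.eqOn_of_preconnected_of_eventuallyEq ha' hconn hx h6
  refine h7 ?_
  rw [hΩ, Set.mem_compl_iff, Set.mem_union, not_or]
  exact ⟨hz, hz'⟩

theorem lattice_le (L L' : PeriodPair) (h2 : L.g₂ = L'.g₂) (h3 : L.g₃ = L'.g₃) :
    L.lattice ≤ L'.lattice := by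
  intro l hl
  by_contra hl'
  have h4 : L.weierstrassP =ᶠ[𝓝[≠] l] L'.weierstrassP := by
    filter_upwards [punctured L l, punctured L' l] with z hz hz'
    exact global_eq L L' h2 h3 z hz hz'
  have h5 := L.order_weierstrassP l hl
  have h6 : 0 ≤ meromorphicOrderAt L'.weierstrassP l :=
    (L'.analyticOnNhd_weierstrassP l hl').meromorphicOrderAt_nonneg
  rw [meromorphicOrderAt_congr h4] at h5
  rw [h5] at h6
  exact absurd h6 (by decide)

end RIG_

/-- RIG: the invariants determine the lattice -/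
theorem p_RIG : T_RIG := fun L L' h2 h3 =>
  le_antisymm (RIG_.lattice_le L L' h2 h3) (RIG_.lattice_le L' L h2.symm h3.symm)

end SSW
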