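import Pool.Agent.SSW.RPB

/-!
# RPA: `Rep` and addition (job SSW-RPA)
-/

set_option autoImplicit false

open Polynomial
open scoped UpperHalfPlane

namespace SSW

open SSA SSP

namespace RPA_

/-- `R` is regular at `x` with value `v` -/
def V (x : ℂ) (R : RatFunc ℂ) (v : ℂ) : Prop := R.denom.eval x ≠ 0 ∧ evr R x = v

section

variable {x : ℂ} {R S : RatFunc ℂ} {v w : ℂ}

lemma V_add (h : T_EVR) (h1 : V x R v) (h2 : V x S w) : V x (R + S) (v + w) := by
  obtain ⟨a1, a2, -⟩ := h.1 R S x h1.1 h2.1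
  refine ⟨a1, ?_⟩
  rw [a2, h1.2, h2.2]

lemma V_sub (h : T_EVR) (h1 : V x R v) (h2 : V x S w) : V x (R - S) (v - w) := by
  obtain ⟨-, -, a1, a2, -⟩ := h.1 R S x h1.1 h2.1
  refine ⟨a1, ?_⟩
  rw [a2, h1.2, h2.2]

lemma V_mul (h : T_EVR) (h1 : V x R v) (h2 : V x S w) : V x (R * S) (v * w) := by
  obtain ⟨-, -, -, -, a1, a2⟩ := h.1 R S x h1.1 h2.1
  refine ⟨a1, ?_⟩
  rw [a2, h1.2, h2.2]

lemma V_div (h : T_EVR) (h1 : V x R v) (h2 : V x S w) (hw : w ≠ 0) : V x (R / S) (v / w) := by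
  obtain ⟨a1, a2⟩ := h.2.1 R S x h1.1 h2.1 (by rw [h2.2]; exact hw)
  refine ⟨a1, ?_⟩
  rw [a2, h1.2, h2.2]

lemma V_C (h : T_EVR) (c : ℂ) : V x (RatFunc.C c) c := h.2.2.1 c x

lemma V_X (h : T_EVR) : V x RatFunc.X x := h.2.2.2.1 x

lemma V_neg (h : T_EVR) (h1 : V x R v) : V x (-R) (-v) := by
  have h2 := V_mul h (V_C (x := x) h (-1)) h1
  have e1 : RatFunc.C (-1) * R = - R := by
    rw [map_neg, map_one]
    ring
  have e2 : (-1 : ℂ) * v = - v := by ring
  rw [e1, e2] at h2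
  exact h2

lemma V_sq (h : T_EVR) (h1 : V x R v) : V x (R ^ 2) (v ^ 2) := by
  rw [pow_two, pow_two]
  exact V_mul h h1 h1

lemma V_pow3 (h : T_EVR) (h1 : V x R v) : V x (R ^ 3) (v ^ 3) := by
  rw [pow_succ, pow_succ v]
  exact V_mul h (V_sq h h1) h1

lemma V_two (h : T_EVR) : V x 2 2 := by
  have h1 := V_C (x := x) h 2
  rw [map_ofNat] at h1
  exact h1

lemma V_three (h : T_EVR) : V x 3 3 := by
  have h1 := V_C (x := x) h 3
  rw [map_ofNat] at h1
  exact h1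

lemma V_ff (h : T_EVR) (a b : ℂ) : V x (ff a b) (x ^ 3 + a * x + b) := by
  unfold ff
  exact V_add h (V_add h (V_pow3 h (V_X h)) (V_mul h (V_C h a) (V_X h))) (V_C h b)

end

/-- value of the cubic at `℘ z` -/
lemma ff_val (h : T_EVR) (L : PeriodPair) {z : ℂ} (hz : z ∉ L.lattice) :
    V (L.weierstrassP z) (ff (aw L) (bw L)) (L.derivWeierstrassP z ^ 2 / 4) := by
  have h1 := V_ff (x := L.weierstrassP z) h (aw L) (bw L)
  have e : L.weierstrassP z ^ 3 + aw L * L.weierstrassP z + bw L =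
      L.derivWeierstrassP z ^ 2 / 4 := by
    rw [L.derivWeierstrassP_sq z hz]
    unfold aw bw
    ring
  rw [e] at h1
  exact h1

/-- membership in the good set in terms of values -/
lemma mem_good {L : PeriodPair} {P : MM (aw L) (bw L)} {m z : ℂ} (h1 : z ∉ L.lattice)
    (h2 : m * z ∉ L.lattice) (h3 : V (L.weierstrassP z) (xr P) (L.weierstrassP (m * z)))
    {s : ℂ} (h4 : V (L.weierstrassP z) (yr P) s)
    (h5 : L.derivWeierstrassP (m * z) = L.derivWeierstrassP z * s) : z ∈ RPB_.Gd L P m := by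
  refine ⟨h1, h2, h3.1, h4.1, h3.2.symm, ?_⟩
  rw [h4.2]
  exact h5

/-- two different rational functions have different values outside a countable set -/
lemma ne_set (h2 : T_CTB) (L : PeriodPair) {R S : RatFunc ℂ} (hRS : R ≠ S) :
    {z : ℂ | z ∈ L.lattice ∨ (R - S).num.eval (L.weierstrassP z) = 0}.Countable :=
  (h2 L).1 _ (RatFunc.num_ne_zero (sub_ne_zero.2 hRS))

lemma rep_of {L : PeriodPair} {P : MM (aw L) (bw L)} {m : ℂ} (h0 : P ≠ 0)
    (h : (RPB_.Gd L P m)ᶜ.Countable) : Rep L P m := ⟨h0, h⟩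

/-- addition -/
theorem add_rep (h2 : T_CTB) (h3 : T_EVR) (h4 : T_ADD) (h7 : SSA.T_API) {L : PeriodPair}
    (hyp : Hyp (aw L) (bw L)) {P Q : MM (aw L) (bw L)} {m n : ℂ} (hP : Rep L P m)
    (hQ : Rep L Q n) (hPQ : P ≠ Q) (hPQ' : P ≠ -Q) : Rep L (P + Q) (m + n) := by
  obtain ⟨-, -, -, -, -, a6, a7, -, -⟩ := h7 ℂ (aw L) (bw L) hyp
  have hx : xr P ≠ xr Q := by
    intro h
    rcases a6 P Q hP.1 hQ.1 h with h | h
    · exact hPQ h
    · exact hPQ' h
  obtain ⟨b1, b2, b3⟩ := a7 P Q hP.1 hQ.1 hx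
  refine rep_of b1 (((RPB_.gd hP).union ((RPB_.gd hQ).union (ne_set h2 L hx))).mono ?_)
  intro z hz
  by_contra hz'
  apply hz
  rw [Set.mem_union, Set.mem_union, not_or, not_or, Set.mem_compl_iff, Set.mem_compl_iff,
    not_not, not_not] at hz'
  obtain ⟨⟨p1, p2, p3, p4, p5, p6⟩, ⟨q1, q2, q3, q4, q5, q6⟩, k0⟩ := hz'
  have k1 : (xr P - xr Q).num.eval (L.weierstrassP z) ≠ 0 := fun h => k0 (Or.inr h)
  have vP : V (L.weierstrassP z) (xr P) (L.weierstrassP (m * z)) := ⟨p3, p5.symm⟩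
  have vQ : V (L.weierstrassP z) (xr Q) (L.weierstrassP (n * z)) := ⟨q3, q5.symm⟩
  have vd := V_sub h3 vP vQ
  have hne : L.weierstrassP (m * z) - L.weierstrassP (n * z) ≠ 0 := by
    rw [← vd.2]
    exact div_ne_zero k1 vd.1
  obtain ⟨r1, r2, r3⟩ := h4 L (m * z) (n * z) p2 q2 (sub_ne_zero.1 hne)
  rw [← add_mul] at r1 r2 r3
  have wP : V (L.weierstrassP z) (yr P) (evr (yr P) (L.weierstrassP z)) := ⟨p4, rfl⟩
  have wQ : V (L.weierstrassP z) (yr Q) (evr (yr Q) (L.weierstrassP z)) := ⟨q4, rfl⟩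
  have vM := V_div h3 (V_sub h3 wP wQ) vd hne
  have vX := V_sub h3 (V_sub h3 (V_mul h3 (ff_val h3 L p1) (V_sq h3 vM)) vP) vQ
  rw [← b2] at vX
  have eX : L.derivWeierstrassP z ^ 2 / 4 *
      ((evr (yr P) (L.weierstrassP z) - evr (yr Q) (L.weierstrassP z)) /
        (L.weierstrassP (m * z) - L.weierstrassP (n * z))) ^ 2 - L.weierstrassP (m * z) -
        L.weierstrassP (n * z) = L.weierstrassP ((m + n) * z) := by
    rw [r2, p6, q6]
    ring
  rw [eX] at vX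
  have vY := V_neg h3 (V_add h3 (V_mul h3 vM (V_sub h3 vX vP)) wP)
  rw [← b3] at vY
  refine mem_good p1 r1 vX vY ?_
  rw [r3, p6, q6]
  ring

/-- doubling -/
theorem dbl_rep (h2 : T_CTB) (h3 : T_EVR) (h5 : T_DUP) (h6 : T_RPB) (h7 : SSA.T_API)
    {L : PeriodPair} (hyp : Hyp (aw L) (bw L)) {P : MM (aw L) (bw L)} {m : ℂ}
    (hP : Rep L P m) : Rep L (P + P) (m + m) := by
  obtain ⟨-, -, -, -, -, -, -, a8, -⟩ := h7 ℂ (aw L) (bw L) hyp
  obtain ⟨-, g⟩ := h6 L hyp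
  obtain ⟨-, hm, -, hy, -⟩ := g P m hP
  obtain ⟨b1, b2, b3⟩ := a8 P hP.1 hy
  obtain ⟨-, c2, -, c4⟩ := h2 L
  refine rep_of b1 (((RPB_.gd hP).union (c2 m hm _ c4)).mono ?_)
  intro z hz
  by_contra hz'
  apply hz
  rw [Set.mem_union, not_or, Set.mem_compl_iff, not_not] at hz'
  obtain ⟨⟨p1, p2, p3, p4, p5, p6⟩, k0⟩ := hz'
  have k1 : L.derivWeierstrassP (m * z) ≠ 0 := fun h => k0 ⟨p2, h⟩
  have vP : V (L.weierstrassP z) (xr P) (L.weierstrassP (m * z)) := ⟨p3, p5.symm⟩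
  have wP : V (L.weierstrassP z) (yr P) (evr (yr P) (L.weierstrassP z)) := ⟨p4, rfl⟩
  have k2 : L.derivWeierstrassP z * evr (yr P) (L.weierstrassP z) ≠ 0 := by
    rw [← p6]
    exact k1
  have kd : L.derivWeierstrassP z ≠ 0 := left_ne_zero_of_mul k2
  have ky : evr (yr P) (L.weierstrassP z) ≠ 0 := right_ne_zero_of_mul k2
  obtain ⟨r1, r2, r3⟩ := h5 L (m * z) p2 k1
  rw [← add_mul] at r1 r2 r3
  have vF := ff_val h3 L p1
  have vD := V_mul h3 (V_mul h3 (V_two h3) vF) wP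
  have hne : 2 * (L.derivWeierstrassP z ^ 2 / 4) * evr (yr P) (L.weierstrassP z) ≠ 0 :=
    mul_ne_zero (mul_ne_zero two_ne_zero (div_ne_zero (pow_ne_zero 2 kd) (by norm_num))) ky
  have vM := V_div h3 (V_add h3 (V_mul h3 (V_three h3) (V_sq h3 vP)) (V_C h3 (aw L))) vD hne
  have vX := V_sub h3 (V_mul h3 vF (V_sq h3 vM)) (V_mul h3 (V_two h3) vP)
  rw [← b2] at vX
  have eX : L.derivWeierstrassP z ^ 2 / 4 *
      ((3 * L.weierstrassP (m * z) ^ 2 + aw L) /
        (2 * (L.derivWeierstrassP z ^ 2 / 4) * evr (yr P) (L.weierstrassP z))) ^ 2 -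
        2 * L.weierstrassP (m * z) = L.weierstrassP ((m + m) * z) := by
    rw [r2, p6]
    unfold aw
    field_simp
    ring
  rw [eX] at vX
  have vY := V_neg h3 (V_add h3 (V_mul h3 vM (V_sub h3 vX vP)) wP)
  rw [← b3] at vY
  refine mem_good p1 r1 vX vY ?_
  rw [r3, p6]
  generalize L.weierstrassP ((m + m) * z) = W
  unfold aw
  field_simp
  ring

end RPA_

open RPA_ in
/-- RPA: `Rep` and addition -/
theorem p_RPA (_h1 : T_SND) (h2 : T_CTB) (h3 : T_EVR) (h4 : T_ADD) (h5 : T_DUP) (h6 : T_RPB)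
    (h7 : SSA.T_API) : T_RPA := by
  intro L hyp
  have hadd : ∀ (P Q : MM (aw L) (bw L)) (m n : ℂ), Rep L P m → Rep L Q n → P ≠ Q → P ≠ -Q →
      Rep L (P + Q) (m + n) :=
    fun P Q m n hP hQ e1 e2 => add_rep h2 h3 h4 h7 hyp hP hQ e1 e2
  have hdbl : ∀ (P : MM (aw L) (bw L)) (m : ℂ), Rep L P m → Rep L (P + P) (m + m) :=
    fun P m hP => dbl_rep h2 h3 h5 h6 h7 hyp hP
  refine ⟨hadd, hdbl, ?_⟩
  obtain ⟨hid, g⟩ := h6 L hyp
  have hD : ∀ (P : MM (aw L) (bw L)) (m : ℂ), Rep L P m → DD P = RatFunc.C m :=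
    fun P m hP => (g P m hP).2.2.2.2
  have hidn : Rep L (-idM (aw L) (bw L)) (-1) := (g _ _ hid).1
  have main : ∀ n : ℕ, Rep L ((n + 1) • idM (aw L) (bw L)) ((n + 1 : ℕ) : ℂ) := by
    intro n
    induction n with
    | zero =>
      rw [zero_add, one_smul, Nat.cast_one]
      exact hid
    | succ k ih =>
      rcases Nat.eq_zero_or_pos k with h0 | h0
      · subst h0
        have h8 := hdbl _ _ hid
        have e1 : (0 + 1 + 1) • idM (aw L) (bw L) = idM (aw L) (bw L) + idM (aw L) (bw L) := by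
          rw [zero_add, one_add_one_eq_two, two_smul]
        have e2 : (((0 + 1 + 1 : ℕ)) : ℂ) = 1 + 1 := by push_cast; ring
        rw [e1, e2]
        exact h8
      · have e1 : (k + 1 + 1) • idM (aw L) (bw L) =
            (k + 1) • idM (aw L) (bw L) + idM (aw L) (bw L) := by
          rw [add_smul (k + 1) 1, one_smul]
        have e2 : (((k + 1 + 1 : ℕ)) : ℂ) = ((k + 1 : ℕ) : ℂ) + 1 := by push_cast; ring
        rw [e1, e2]
        refine hadd _ _ _ _ ih hid ?_ ?_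
        · intro h9
          have h10 := hD _ _ ih
          rw [h9, hD _ _ hid] at h10
          have h11 : (1 : ℂ) = ((k + 1 : ℕ) : ℂ) := RatFunc.C_injective h10
          have h12 : (1 : ℕ) = k + 1 := by exact_mod_cast h11
          omega
        · intro h9
          have h10 := hD _ _ ih
          rw [h9, hD _ _ hidn] at h10
          have h11 : (-1 : ℂ) = ((k + 1 : ℕ) : ℂ) := RatFunc.C_injective h10
          have h12 : ((k + 1 + 1 : ℕ) : ℂ) = 0 := by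
            push_cast
            push_cast at h11
            rw [← h11]
            ring
          have h13 : k + 1 + 1 = 0 := by exact_mod_cast h12
          omega
  intro n hn
  obtain ⟨k, rfl⟩ := Nat.exists_eq_succ_of_ne_zero hn.ne'
  exact main k

end SSW
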