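import Pool.Agent.SSW.Targets

/-!
# RPB: basic properties of `Rep` (job SSW-RPB)
-/

set_option autoImplicit false

open Polynomial
open scoped UpperHalfPlane

namespace SSW

open SSA SSP

namespace RPB_

/-- the good set of a representation -/
def Gd (L : PeriodPair) (P : MM (aw L) (bw L)) (m : ℂ) : Set ℂ :=
  {z : ℂ | z ∉ L.lattice ∧ m * z ∉ L.lattice ∧ (xr P).denom.eval (L.weierstrassP z) ≠ 0 ∧
    (yr P).denom.eval (L.weierstrassP z) ≠ 0 ∧
    L.weierstrassP (m * z) = evr (xr P) (L.weierstrassP z) ∧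
    L.derivWeierstrassP (m * z) = L.derivWeierstrassP z * evr (yr P) (L.weierstrassP z)}

theorem gd {L : PeriodPair} {P : MM (aw L) (bw L)} {m : ℂ} (h : Rep L P m) :
    (Gd L P m)ᶜ.Countable := h.2

/-- a set with countable complement is not countable -/
theorem not_countable {G : Set ℂ} (h : Gᶜ.Countable) (hG : G.Countable) : False := by
  apply _root_.not_countable_complex
  rw [← Set.union_compl_self G]
  exact hG.union h

/-- points are accumulation points of sets with countable complement -/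
theorem uniqueDiff {G : Set ℂ} (h : Gᶜ.Countable) (z : ℂ) : UniqueDiffWithinAt ℂ G z := by
  rw [uniqueDiffWithinAt_iff_accPt, accPt_iff_nhds]
  intro U hU
  have h1 : (Gᶜ ∪ {z}).Countable := h.union (Set.countable_singleton z)
  have h2 : Dense (Gᶜ ∪ {z})ᶜ := h1.dense_compl ℝ
  obtain ⟨y, hy1, hy2⟩ := h2.inter_nhds_nonempty hU
  refine ⟨y, ⟨hy2, ?_⟩, ?_⟩
  · by_contra h3
    exact hy1 (Or.inl h3)
  · intro h3
    exact hy1 (Or.inr h3)

/-- comparison of the derivatives -/
theorem deriv_eq (h1 : T_SND) (h3 : T_EVR) {L : PeriodPair} {P : MM (aw L) (bw L)} {m : ℂ}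
    (h : (Gd L P m)ᶜ.Countable) {z : ℂ} (hz : z ∈ Gd L P m) :
    m * L.derivWeierstrassP (m * z) =
      evr (rder (xr P)) (L.weierstrassP z) * L.derivWeierstrassP z := by
  obtain ⟨hz1, hz2, hz3, hz4, hz5, hz6⟩ := hz
  have k1 : HasDerivAt (fun w : ℂ => L.weierstrassP (m * w))
      (L.derivWeierstrassP (m * z) * m) z := by
    have h4 := (h1 L (m * z) hz2).1
    have h5 : HasDerivAt (fun w : ℂ => m * w) m z := by
      simpa using (hasDerivAt_id z).const_mul m
    exact HasDerivAt.comp z h4 h5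
  have k2 : HasDerivAt (fun w : ℂ => evr (xr P) (L.weierstrassP w))
      (evr (rder (xr P)) (L.weierstrassP z) * L.derivWeierstrassP z) z := by
    have h4 := (h3.2.2.2.2.2.2 (xr P) (L.weierstrassP z) hz3).2
    exact HasDerivAt.comp z h4 (h1 L z hz1).1
  have k3 : HasDerivWithinAt (fun w : ℂ => evr (xr P) (L.weierstrassP w))
      (L.derivWeierstrassP (m * z) * m) (Gd L P m) z :=
    k1.hasDerivWithinAt.congr (fun w hw => hw.2.2.2.2.1.symm) hz5.symm
  have k4 := (uniqueDiff h z).eq_deriv _ k3 k2.hasDerivWithinAt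
  rw [← k4]
  ring

end RPB_

open RPB_ in
/-- RPB: basic properties of `Rep` -/
theorem p_RPB (h1 : T_SND) (h2 : T_CTB) (h3 : T_EVR) (h4 : SSA.T_API) : T_RPB := by
  intro L hyp
  obtain ⟨c1, c2, c3, c4⟩ := h2 L
  obtain ⟨e1, e2, e3, e4, e5, e6, e7⟩ := h3
  obtain ⟨-, -, amk, -, aneg, -⟩ := h4 ℂ (aw L) (bw L) hyp
  refine ⟨?_, ?_⟩
  · -- the identity
    obtain ⟨i1, i2, i3⟩ := amk RatFunc.X 1 (by
      rw [one_pow, mul_one]
      rfl)
    refine ⟨i1, (c1 1 one_ne_zero).mono ?_⟩
    intro z hz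
    refine Or.inl ?_
    by_contra hzL
    apply hz
    have hx := e4 (L.weierstrassP z)
    have hy := e3 1 (L.weierstrassP z)
    rw [map_one] at hy
    change z ∉ L.lattice ∧ 1 * z ∉ L.lattice ∧
      (xr (mkP (aw L) (bw L) RatFunc.X 1)).denom.eval (L.weierstrassP z) ≠ 0 ∧
      (yr (mkP (aw L) (bw L) RatFunc.X 1)).denom.eval (L.weierstrassP z) ≠ 0 ∧
      L.weierstrassP (1 * z) = evr (xr (mkP (aw L) (bw L) RatFunc.X 1)) (L.weierstrassP z) ∧
      L.derivWeierstrassP (1 * z) = L.derivWeierstrassP z *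
        evr (yr (mkP (aw L) (bw L) RatFunc.X 1)) (L.weierstrassP z)
    rw [i2, i3, one_mul, hx.2, hy.2, mul_one]
    exact ⟨hzL, hzL, hx.1, hy.1, rfl, rfl⟩
  · intro P m hP
    have hG := gd hP
    have hP0 := hP.1
    have hm : m ≠ 0 := by
      intro h0
      refine not_countable hG ?_
      have : Gd L P m = ∅ := by
        rw [Set.eq_empty_iff_forall_notMem]
        intro z hz
        apply hz.2.1
        rw [h0, zero_mul]
        exact zero_mem _
      rw [this]
      exact Set.countable_empty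
    have hconst : ∀ c, xr P ≠ RatFunc.C c := by
      intro c hc
      refine not_countable hG ((c2 m hm _ (c1 (X - C c) (X_sub_C_ne_zero c))).mono ?_)
      intro z hz
      refine Or.inr ?_
      rw [eval_sub, eval_X, eval_C, hz.2.2.2.2.1, hc, (e3 c _).2, sub_self]
    have hy0 : yr P ≠ 0 := by
      intro hc
      refine not_countable hG ((c2 m hm _ c4).mono ?_)
      intro z hz
      refine ⟨hz.2.1, ?_⟩
      have h0 := (e3 0 (L.weierstrassP z)).2
      rw [map_zero] at h0
      rw [hz.2.2.2.2.2, hc, h0, mul_zero]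
    refine ⟨⟨neg_ne_zero.2 hP0, hG.mono ?_⟩, hm, hconst, hy0, ?_⟩
    · -- the opposite point
      intro z hz hz'
      apply hz
      obtain ⟨g1, g2, g3, g4, g5, g6⟩ := hz'
      obtain ⟨n1, n2⟩ := aneg P
      have h0 := e3 (-1) (L.weierstrassP z)
      have h5 := e1 (RatFunc.C (-1)) (yr P) (L.weierstrassP z) h0.1 g4
      have h6 : RatFunc.C (-1) * yr P = - yr P := by
        rw [map_neg, map_one]
        ring
      rw [h6] at h5
      obtain ⟨-, -, -, -, h7, h8⟩ := h5
      rw [n1, n2, neg_mul]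
      refine ⟨g1, ?_, g3, h7, ?_, ?_⟩
      · intro h9
        apply g2
        rw [← neg_neg (m * z)]
        exact neg_mem h9
      · rw [PeriodPair.weierstrassP_neg, g5]
      · rw [PeriodPair.derivWeierstrassP_neg, g6, h8, h0.2]
        ring
    · -- the action on the differential
      have key : rder (xr P) = RatFunc.C m * yr P := by
        refine c3 _ _ ((hG.union c4).mono ?_)
        intro z hz
        by_contra hz'
        rw [Set.mem_union, not_or, Set.mem_compl_iff, not_not] at hz'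
        obtain ⟨hzG, hz0⟩ := hz'
        have hd : L.derivWeierstrassP z ≠ 0 := fun h0 => hz0 ⟨hzG.1, h0⟩
        apply hz.2.2.2
        have k1 := deriv_eq h1 ⟨e1, e2, e3, e4, e5, e6, e7⟩ hG hzG
        rw [hzG.2.2.2.2.2] at k1
        have k2 := (e1 (RatFunc.C m) (yr P) (L.weierstrassP z) (e3 m _).1
          hzG.2.2.2.1).2.2.2.2.2
        rw [k2, (e3 m _).2]
        have k3 : L.derivWeierstrassP z * (m * evr (yr P) (L.weierstrassP z)) =
            L.derivWeierstrassP z * evr (rder (xr P)) (L.weierstrassP z) := by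
          linear_combination k1
        exact (mul_left_cancel₀ hd k3).symm
      rw [DD, key, mul_div_assoc, div_self hy0, mul_one]

end SSW
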