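import Pool.Agent.SSW.Targets

/-!
# RPE: the point of a complex multiplication
-/

open Polynomial
open scoped UpperHalfPlane Topology

namespace SSW

open SSA SSP

namespace RPE_

lemma evr_ev (h2 : T_EVR) (a b : ℂ) (R : RatFunc ℂ) (x : ℂ) (hR : R.denom.eval x ≠ 0) :
    (ev a b R).denom.eval x ≠ 0 ∧ evr (ev a b R) x = evr R x ^ 3 + a * evr R x + b := by
  obtain ⟨hop, -, hC, -⟩ := h2
  have e : ev a b R = R * R * R + RatFunc.C a * R + RatFunc.C b := by
    unfold ev
    ring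
  obtain ⟨-, -, -, -, m1, m2⟩ := hop R R x hR hR
  obtain ⟨-, -, -, -, m3, m4⟩ := hop (R * R) R x m1 hR
  obtain ⟨-, -, -, -, m5, m6⟩ := hop (RatFunc.C a) R x (hC a x).1 hR
  obtain ⟨m7, m8, -⟩ := hop (R * R * R) (RatFunc.C a * R) x m3 m5
  obtain ⟨m9, m10, -⟩ := hop (R * R * R + RatFunc.C a * R) (RatFunc.C b) x m7 (hC b x).1
  rw [e]
  refine ⟨m9, ?_⟩
  rw [m10, m8, m4, m2, m6, (hC a x).2, (hC b x).2]
  ring

lemma intDegree_pos (A B : ℂ[X]) (hB : B ≠ 0) (h : B.natDegree < A.natDegree) :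
    (algebraMap ℂ[X] (RatFunc ℂ) A / algebraMap ℂ[X] (RatFunc ℂ) B).denom.natDegree <
      (algebraMap ℂ[X] (RatFunc ℂ) A / algebraMap ℂ[X] (RatFunc ℂ) B).num.natDegree := by
  have hA : A ≠ 0 := by
    rintro rfl
    simp at h
  have h1 : (algebraMap ℂ[X] (RatFunc ℂ) A / algebraMap ℂ[X] (RatFunc ℂ) B).intDegree =
      (A.natDegree : ℤ) - B.natDegree := by
    rw [div_eq_mul_inv, RatFunc.intDegree_mul (RatFunc.algebraMap_ne_zero hA)
      (inv_ne_zero (RatFunc.algebraMap_ne_zero hB)), RatFunc.intDegree_inv,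
      RatFunc.intDegree_polynomial, RatFunc.intDegree_polynomial]
    ring
  unfold RatFunc.intDegree at h1
  omega

end RPE_

open RPE_ in
theorem p_RPE (h1 : T_SND) (h2 : T_CTB) (h3 : T_EVR) (h4 : T_MUL) (h5 : SSA.T_API) : T_RPE := by
  intro L hL c hc hmul
  obtain ⟨A, B, hB0, hdeg, hAB⟩ := h4 L c hc hmul
  obtain ⟨hctb1, hctb2, hctb3, -⟩ := h2 L
  have hEVR := h3
  obtain ⟨hop, hdiv, hC, hX, hfrac, -, hder⟩ := h3
  set R : RatFunc ℂ := algebraMap ℂ[X] (RatFunc ℂ) A / algebraMap ℂ[X] (RatFunc ℂ) B with hRdef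
  have hLc : (L.lattice : Set ℂ).Countable :=
    (hctb1 1 one_ne_zero).mono fun z hz => Or.inl hz
  have hbad : {z : ℂ | c * z ∈ (L.lattice : Set ℂ)}.Countable := hctb2 c hc _ hLc
  have hR : ∀ z, c * z ∉ L.lattice → R.denom.eval (L.weierstrassP z) ≠ 0 ∧
      evr R (L.weierstrassP z) = L.weierstrassP (c * z) := by
    intro z hz
    obtain ⟨-, hBz, hv⟩ := hAB z hz
    have := hfrac A B (L.weierstrassP z) hBz
    exact ⟨this.1, by rw [this.2, hv]⟩
  have hRd : ∀ z, c * z ∉ L.lattice → (rder R).denom.eval (L.weierstrassP z) ≠ 0 ∧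
      L.derivWeierstrassP (c * z) * c =
        evr (rder R) (L.weierstrassP z) * L.derivWeierstrassP z := by
    intro z hz
    obtain ⟨hzL, -, -⟩ := hAB z hz
    obtain ⟨hd1, hd2⟩ := hder R (L.weierstrassP z) (hR z hz).1
    refine ⟨hd1, ?_⟩
    have k1 := (h1 L z hzL).1
    have k2 := (h1 L (c * z) hz).1
    have k3 : HasDerivAt (fun w => evr R (L.weierstrassP w))
        (evr (rder R) (L.weierstrassP z) * L.derivWeierstrassP z) z := hd2.comp z k1
    have k4 : HasDerivAt (fun w => L.weierstrassP (c * w)) (L.derivWeierstrassP (c * z) * c) z := by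
      have k5 : HasDerivAt (fun w : ℂ => c * w) c z := by
        simpa using (hasDerivAt_id z).const_mul c
      exact k2.comp z k5
    have hev : (fun w => L.weierstrassP (c * w)) =ᶠ[𝓝 z] fun w => evr R (L.weierstrassP w) := by
      have hopen : IsOpen {w : ℂ | c * w ∈ ((L.lattice : Set ℂ)ᶜ)} :=
        L.isClosed_lattice.isOpen_compl.preimage (continuous_const.mul continuous_id)
      filter_upwards [hopen.mem_nhds hz] with w hw
      exact (hR w hw).2.symm
    exact k4.unique (k3.congr_of_eventuallyEq hev)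
  set S : RatFunc ℂ := rder R / RatFunc.C c with hSdef
  have hS : ∀ z, c * z ∉ L.lattice → S.denom.eval (L.weierstrassP z) ≠ 0 ∧
      L.derivWeierstrassP (c * z) = L.derivWeierstrassP z * evr S (L.weierstrassP z) := by
    intro z hz
    obtain ⟨r1, r2⟩ := hRd z hz
    have hCc := hC c (L.weierstrassP z)
    have := hdiv (rder R) (RatFunc.C c) (L.weierstrassP z) r1 hCc.1 (by rw [hCc.2]; exact hc)
    refine ⟨this.1, ?_⟩
    rw [this.2, hCc.2]
    field_simp
    linear_combination r2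
  have hfS : ff (aw L) (bw L) * S ^ 2 = ev (aw L) (bw L) R := by
    refine hctb3 _ _ (hbad.mono ?_)
    rintro z ⟨-, -, -, hz4⟩
    by_contra hcon
    have hcz : c * z ∉ L.lattice := hcon
    apply hz4
    obtain ⟨hzL, -, -⟩ := hAB z hcz
    have hff : ff (aw L) (bw L) = ev (aw L) (bw L) RatFunc.X := rfl
    have f1 := evr_ev hEVR (aw L) (bw L) RatFunc.X (L.weierstrassP z) (hX _).1
    rw [← hff, (hX _).2] at f1
    have f2 := evr_ev hEVR (aw L) (bw L) R (L.weierstrassP z) (hR z hcz).1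
    rw [(hR z hcz).2] at f2
    obtain ⟨s1, s2⟩ := hS z hcz
    obtain ⟨-, -, -, -, m1, m2⟩ := hop S S (L.weierstrassP z) s1 s1
    obtain ⟨-, -, -, -, m3, m4⟩ := hop (ff (aw L) (bw L)) (S * S) (L.weierstrassP z) f1.1 m1
    rw [sq, m4, m2, f1.2, f2.2]
    have o1 := L.derivWeierstrassP_sq z hzL
    have o2 := L.derivWeierstrassP_sq (c * z) hcz
    have o3 : L.weierstrassP z ^ 3 + aw L * L.weierstrassP z + bw L =
        L.derivWeierstrassP z ^ 2 / 4 := by
      rw [o1]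
      unfold aw bw
      ring
    have o4 : L.weierstrassP (c * z) ^ 3 + aw L * L.weierstrassP (c * z) + bw L =
        L.derivWeierstrassP (c * z) ^ 2 / 4 := by
      rw [o2]
      unfold aw bw
      ring
    rw [o3, o4, s2]
    ring
  obtain ⟨-, -, hmk, -⟩ := h5 ℂ (aw L) (bw L) hL
  obtain ⟨a1, a2, a3⟩ := hmk R S hfS
  refine ⟨mkP (aw L) (bw L) R S, ⟨a1, hbad.mono ?_⟩, ?_⟩
  · intro z hz
    by_contra hcon
    have hcz : c * z ∉ L.lattice := hcon
    apply hz
    obtain ⟨hzL, -, -⟩ := hAB z hcz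
    rw [a2, a3]
    exact ⟨hzL, hcz, (hR z hcz).1, (hS z hcz).1, (hR z hcz).2.symm, (hS z hcz).2⟩
  · rw [a2]
    exact intDegree_pos A B hB0 hdeg

end SSW
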