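import Pool.Agent.SSW.Targets

/-!
# RPX: `Rep` and composition
-/

open Polynomial
open scoped UpperHalfPlane

namespace SSW

open SSA SSP

theorem p_RPX (h1 : T_CTB) (h2 : T_EVR) (h3 : T_RPB) : T_RPX := by
  intro L hL P Q T m n hP hQ hT
  obtain ⟨-, hcount, hEq, -⟩ := h1 L
  obtain ⟨-, -, -, -, -, hcomp, -⟩ := h2
  have hQb := (h3 L hL).2 Q n hQ
  have hn0 : n ≠ 0 := hQb.2.1
  have hQnc : ∀ c, xr Q ≠ RatFunc.C c := hQb.2.2.1
  have hbad := hcount n hn0 _ hP.2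
  refine hEq _ _ (((hbad.union hQ.2).union hT.2).mono ?_)
  rintro z ⟨hz1, hz2, hz3, hz4⟩
  by_contra hcon
  simp only [Set.mem_union, Set.mem_ofPred_eq, not_or, not_not] at hcon
  obtain ⟨⟨g1, g2⟩, g3⟩ := hcon
  apply hz4
  have e1 : L.weierstrassP (m * (n * z)) = evr (xr P) (L.weierstrassP (n * z)) := g1.2.2.2.2.1
  have e2 : L.weierstrassP (n * z) = evr (xr Q) (L.weierstrassP z) := g2.2.2.2.2.1
  have e3 : L.weierstrassP (m * n * z) = evr (xr T) (L.weierstrassP z) := g3.2.2.2.2.1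
  have hd : (xr P).denom.eval (evr (xr Q) (L.weierstrassP z)) ≠ 0 := by
    rw [← e2]
    exact g1.2.2.1
  rw [(hcomp (xr P) (xr Q) (L.weierstrassP z) hQnc g2.2.2.1 hd).2, ← e3, ← e2, ← e1, mul_assoc]

end SSW
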