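import Pool.Agent.SSW.Targets
import Pool.Agent.SSA.RFC

/-!
# MP_d74fca_nt (supersingular primes): SCL, scaling of the model
-/

set_option autoImplicit false

open Polynomial

namespace SSW

open SSA

namespace SCL_

variable {k : Type} [Field k]

/-- numerator and denominator of a reduced fraction -/
theorem numden {N D : k[X]} (hD : D ≠ 0) (hc : IsCoprime N D) {R : RatFunc k}
    (hR : R = algebraMap k[X] (RatFunc k) N / algebraMap k[X] (RatFunc k) D) :
    ∃ w : k, w ≠ 0 ∧ N = R.num * C w ∧ D = R.denom * C w := by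
  have h1 : R.num * D = N * R.denom := (RatFunc.num_mul_eq_mul_denom_iff hD).2 hR
  have h2 : IsCoprime R.num R.denom := RatFunc.isCoprime_num_denom R
  obtain ⟨w, hw⟩ : R.denom ∣ D := h2.symm.dvd_of_dvd_mul_left (Dvd.intro_left N h1.symm)
  have hd0 : R.denom ≠ 0 := RatFunc.denom_ne_zero R
  have h3 : N = R.num * w := by
    apply mul_right_cancel₀ hd0
    rw [← h1, hw]
    ring
  have hu : IsUnit w := by
    rw [h3, hw] at hc
    exact hc.isUnit_of_dvd' (Dvd.intro_left _ rfl) (Dvd.intro_left _ rfl)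
  obtain ⟨c, hc1, hc2⟩ := Polynomial.isUnit_iff.1 hu
  refine ⟨c, hc1.ne_zero, ?_, ?_⟩
  · rw [hc2]; exact h3
  · rw [hc2]; exact hw

/-- composition may be computed with any reduced fraction -/
theorem rcomp_mk {N D : k[X]} (hD : D ≠ 0) (hc : IsCoprime N D) {R : RatFunc k}
    (hR : R = algebraMap k[X] (RatFunc k) N / algebraMap k[X] (RatFunc k) D) (T : RatFunc k) :
    rcomp R T = aeval T N / aeval T D := by
  obtain ⟨w, hw, h1, h2⟩ := numden hD hc hR
  have hw' : algebraMap k (RatFunc k) w ≠ 0 := by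
    rw [RatFunc.algebraMap_eq_C]
    exact (_root_.map_ne_zero _).2 hw
  unfold rcomp
  rw [h1, h2, map_mul, map_mul, aeval_C, mul_div_mul_right _ _ hw']

theorem natDegree_mk {N D : k[X]} (hD : D ≠ 0) (hc : IsCoprime N D) {R : RatFunc k}
    (hR : R = algebraMap k[X] (RatFunc k) N / algebraMap k[X] (RatFunc k) D) :
    R.num.natDegree = N.natDegree ∧ R.denom.natDegree = D.natDegree := by
  obtain ⟨w, hw, h1, h2⟩ := numden hD hc hR
  constructor
  · rw [h1, natDegree_mul_C hw]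
  · rw [h2, natDegree_mul_C hw]

/-- the argument `X / v` -/
noncomputable def uu (v : k) : RatFunc k := RatFunc.C v⁻¹ * RatFunc.X

theorem uu_eq (v : k) : uu v = algebraMap k[X] (RatFunc k) (C v⁻¹ * X) := by
  rw [uu, map_mul, RatFunc.algebraMap_C, RatFunc.algebraMap_X]

theorem uu_ne {v : k} (hv : v ≠ 0) (c : k) : uu v ≠ RatFunc.C c := by
  intro h
  rw [uu_eq, ← RatFunc.algebraMap_C] at h
  have h1 := RatFunc.algebraMap_injective k h
  have h2 := congrArg (fun P : k[X] => P.coeff 1) h1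
  simp [hv] at h2

/-- the automorphism `X ↦ X / v` -/
noncomputable def psi {v : k} (hv : v ≠ 0) : RatFunc k →ₐ[k] RatFunc k := RFC_.Phi (uu v) (uu_ne hv)

theorem psi_C {v : k} (hv : v ≠ 0) (c : k) : psi hv (RatFunc.C c) = RatFunc.C c :=
  RFC_.Phi_C _ _ _

theorem psi_X {v : k} (hv : v ≠ 0) : psi hv RatFunc.X = uu v := RFC_.Phi_X _ _

theorem psi_inj {v : k} (hv : v ≠ 0) : Function.Injective (psi hv) := RFC_.Phi_inj _ _

theorem psi_poly {v : k} (hv : v ≠ 0) (P : k[X]) : psi hv (algebraMap k[X] (RatFunc k) P) =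
    algebraMap k[X] (RatFunc k) (P.comp (C v⁻¹ * X)) := by
  rw [psi, RFC_.Phi_algebraMap, uu_eq, aeval_algebraMap_apply]
  rfl

/-- the reduced fraction of `v ψ(g)` -/
theorem frac {v : k} (hv : v ≠ 0) (g : RatFunc k) :
    g.denom.comp (C v⁻¹ * X) ≠ 0 ∧
    IsCoprime (C v * g.num.comp (C v⁻¹ * X)) (g.denom.comp (C v⁻¹ * X)) ∧
    RatFunc.C v * psi hv g = algebraMap k[X] (RatFunc k) (C v * g.num.comp (C v⁻¹ * X)) /
      algebraMap k[X] (RatFunc k) (g.denom.comp (C v⁻¹ * X)) ∧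
    (C v * g.num.comp (C v⁻¹ * X)).natDegree = g.num.natDegree ∧
    (g.denom.comp (C v⁻¹ * X)).natDegree = g.denom.natDegree := by
  have hd1 : (C v⁻¹ * X : k[X]).natDegree = 1 := natDegree_C_mul_X _ (inv_ne_zero hv)
  have h0 : g.denom.comp (C v⁻¹ * X) ≠ 0 := by
    intro h
    have h1 := congrArg (algebraMap k[X] (RatFunc k)) h
    rw [← psi_poly hv, map_zero, map_eq_zero_iff _ (psi_inj hv)] at h1
    exact RatFunc.denom_ne_zero g (RatFunc.algebraMap_injective k (by rw [h1, map_zero]))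
  refine ⟨h0, ?_, ?_, ?_, ?_⟩
  · have h1 := (RatFunc.isCoprime_num_denom g).map (compRingHom (C v⁻¹ * X : k[X]))
    have h2 : IsUnit (C v : k[X]) := (isUnit_iff_ne_zero.2 hv).map C
    exact (isCoprime_mul_unit_left_left h2 _ _).2 h1
  · have h1 : psi hv g = algebraMap k[X] (RatFunc k) (g.num.comp (C v⁻¹ * X)) /
        algebraMap k[X] (RatFunc k) (g.denom.comp (C v⁻¹ * X)) := by
      conv_lhs => rw [← RatFunc.num_div_denom g]
      rw [map_div₀, psi_poly, psi_poly]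
    rw [h1, map_mul, RatFunc.algebraMap_C, mul_div_assoc]
  · rw [natDegree_C_mul hv, natDegree_comp, hd1, mul_one]
  · rw [natDegree_comp, hd1, mul_one]

/-- scaling of compositions (constants allowed) -/
theorem rcomp_scale {v : k} (hv : v ≠ 0) (g R : RatFunc k) :
    rcomp (RatFunc.C v * psi hv g) (RatFunc.C v * psi hv R) = RatFunc.C v * psi hv (rcomp g R) := by
  obtain ⟨h0, hc, he, -, -⟩ := frac hv g
  have key : ∀ P : k[X], aeval (RatFunc.C v * psi hv R) (P.comp (C v⁻¹ * X)) =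
      psi hv (aeval R P) := by
    intro P
    have hv' : RatFunc.C v ≠ (0 : RatFunc k) := (_root_.map_ne_zero _).2 hv
    rw [aeval_comp, map_mul, aeval_C, aeval_X, RatFunc.algebraMap_eq_C, ← mul_assoc, map_inv₀,
      inv_mul_cancel₀ hv', one_mul, aeval_algHom_apply]
  rw [rcomp_mk h0 hc he, map_mul, aeval_C, key, key, rcomp, map_div₀, RatFunc.algebraMap_eq_C,
    mul_div_assoc]

variable {a b : k}

/-- two nonzero points with equal components are equal -/
theorem ext (h1 : T_API) (h : Hyp a b) {P Q : MM a b} (hP : P ≠ 0) (hQ : Q ≠ 0)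
    (hx : xr P = xr Q) (hy : yr P = yr Q) : P = Q := by
  obtain ⟨-, -, -, hA, -⟩ := h1 k a b h
  rw [(hA P hP).2, (hA Q hQ).2, hx, hy]

theorem hyp' (h : Hyp a b) {v : k} (hv : v ≠ 0) : Hyp (v ^ 2 * a) (v ^ 3 * b) := by
  refine ⟨h.two, h.three, ?_⟩
  have : 4 * (v ^ 2 * a) ^ 3 + 27 * (v ^ 3 * b) ^ 2 = v ^ 6 * (4 * a ^ 3 + 27 * b ^ 2) := by ring
  rw [this]
  exact mul_ne_zero (pow_ne_zero _ hv) h.disc

/-- the map on points -/
noncomputable def Psi {v : k} (hv : v ≠ 0) (P : MM a b) : MM (v ^ 2 * a) (v ^ 3 * b) :=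
  if P = 0 then 0 else mkP (v ^ 2 * a) (v ^ 3 * b) (RatFunc.C v * psi hv (xr P)) (psi hv (yr P))

theorem psi_ff {v : k} (hv : v ≠ 0) (a b : k) :
    ff (v ^ 2 * a) (v ^ 3 * b) = RatFunc.C v ^ 3 * psi hv (ff a b) := by
  have hv' : RatFunc.C v ≠ (0 : RatFunc k) := (_root_.map_ne_zero _).2 hv
  simp only [ff, map_add, map_mul, map_pow, psi_C, psi_X, uu, map_inv₀]
  field_simp

theorem psi_ev {v : k} (hv : v ≠ 0) (a b : k) (R : RatFunc k) :
    ev (v ^ 2 * a) (v ^ 3 * b) (RatFunc.C v * psi hv R) = RatFunc.C v ^ 3 * psi hv (ev a b R) := by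
  simp only [ev, map_add, map_mul, map_pow, psi_C]
  ring

/-- properties of the map on points -/
theorem Psi_spec (h1 : T_API) (h : Hyp a b) {v : k} (hv : v ≠ 0) :
    (∀ P : MM a b, xr (Psi hv P) = RatFunc.C v * psi hv (xr P) ∧
      yr (Psi hv P) = psi hv (yr P)) ∧
    (∀ P Q : MM a b, Psi hv (P + Q) = Psi hv P + Psi hv Q) ∧
    Psi hv (0 : MM a b) = 0 ∧ (∀ P : MM a b, Psi hv (-P) = -Psi hv P) ∧
    Psi hv (idM a b) = idM (v ^ 2 * a) (v ^ 3 * b) := by
  have hv' : RatFunc.C v ≠ (0 : RatFunc k) := (_root_.map_ne_zero _).2 hv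
  have h' := hyp' h hv
  obtain ⟨hff, ⟨hx0, hy0⟩, hmk, hpt, hneg, hcase, hadd, hdbl, htor⟩ := h1 k a b h
  obtain ⟨hff', ⟨hx0', hy0'⟩, hmk', hpt', hneg', hcase', hadd', hdbl', htor'⟩ :=
    h1 k (v ^ 2 * a) (v ^ 3 * b) h'
  set r : RatFunc k →ₐ[k] RatFunc k := psi hv with hr
  have rff0 : r (ff a b) ≠ 0 := fun h0 => hff ((map_eq_zero_iff _ (psi_inj hv)).1 h0)
  have tne : ∀ P : MM a b, P ≠ 0 → Psi hv P ≠ 0 ∧ xr (Psi hv P) = RatFunc.C v * r (xr P) ∧
      yr (Psi hv P) = r (yr P) := by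
    intro P hP
    have e1 : Psi hv P = mkP (v ^ 2 * a) (v ^ 3 * b) (RatFunc.C v * r (xr P)) (r (yr P)) := by
      rw [Psi, if_neg hP]
    rw [e1]
    apply hmk'
    rw [psi_ev hv, ← (hpt P hP).1, psi_ff hv, map_mul, map_pow, mul_assoc]
  have t0 : Psi hv (0 : MM a b) = 0 := by rw [Psi, if_pos rfl]
  have txy : ∀ P : MM a b, xr (Psi hv P) = RatFunc.C v * r (xr P) ∧ yr (Psi hv P) = r (yr P) := by
    intro P
    by_cases hP : P = 0
    · rw [hP, t0, hx0, hy0, hx0', hy0', map_zero, mul_zero]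
      exact ⟨rfl, rfl⟩
    · exact (tne P hP).2
  have tneg : ∀ P : MM a b, Psi hv (-P) = - Psi hv P := by
    intro P
    by_cases hP : P = 0
    · rw [hP, neg_zero, t0, neg_zero]
    · have hP' : -P ≠ 0 := neg_ne_zero.2 hP
      apply ext h1 h' (tne _ hP').1 (neg_ne_zero.2 (tne _ hP).1)
      · rw [(txy _).1, (hneg _).1, (hneg' _).1, (txy _).1]
      · rw [(txy _).2, (hneg _).2, (hneg' _).2, (txy _).2, map_neg]
  have ra : RatFunc.C (v ^ 2 * a) = RatFunc.C v ^ 2 * r (RatFunc.C a) := by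
    rw [hr, psi_C, map_mul, map_pow]
  refine ⟨txy, ?_, t0, tneg, ?_⟩
  · -- additivity
    intro P Q
    by_cases hP : P = 0
    · rw [hP, t0, zero_add, zero_add]
    by_cases hQ : Q = 0
    · rw [hQ, t0, add_zero, add_zero]
    obtain ⟨tP, tPx, tPy⟩ := tne P hP
    obtain ⟨tQ, tQx, tQy⟩ := tne Q hQ
    by_cases hx : xr P = xr Q
    · rcases hcase P Q hP hQ hx with rfl | rfl
      · by_cases hy : yr P = 0
        · rw [htor P hy, t0, htor' (Psi hv P) (by rw [tPy, hy, map_zero])]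
        · have hy' : yr (Psi hv P) ≠ 0 := by
            rw [tPy]
            intro h0
            exact hy ((map_eq_zero_iff _ (psi_inj hv)).1 h0)
          have hry : r (yr P) ≠ 0 := fun h0 => hy ((map_eq_zero_iff _ (psi_inj hv)).1 h0)
          have h2' : (2 : RatFunc k) ≠ 0 := by
            have := (_root_.map_ne_zero (RatFunc.C : k →+* RatFunc k)).2 h.two
            rwa [map_ofNat] at this
          obtain ⟨d1, d2, d3⟩ := hdbl P hP hy
          obtain ⟨d1', d2', d3'⟩ := hdbl' (Psi hv P) tP hy'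
          have ex : xr (Psi hv (P + P)) = xr (Psi hv P + Psi hv P) := by
            rw [(txy _).1, d2, d2', tPx, tPy, ra, psi_ff hv]
            simp only [map_sub, map_mul, map_div₀, map_pow, map_add, map_ofNat, ← hr]
            field_simp
          apply ext h1 h' (tne _ d1).1 d1' ex
          rw [(txy _).2, d3, d3', ← ex, (txy (P + P)).1, tPx, tPy, ra, psi_ff hv]
          simp only [map_neg, map_sub, map_mul, map_div₀, map_pow, map_add, map_ofNat, ← hr]
          field_simp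
      · rw [neg_add_cancel, t0, tneg, neg_add_cancel]
    · have hx' : xr (Psi hv P) ≠ xr (Psi hv Q) := by
        rw [tPx, tQx]
        exact fun h0 => hx (psi_inj hv (mul_left_cancel₀ hv' h0))
      have hrx : r (xr P) - r (xr Q) ≠ 0 := by
        rw [sub_ne_zero]
        exact fun h0 => hx (psi_inj hv h0)
      obtain ⟨d1, d2, d3⟩ := hadd P Q hP hQ hx
      obtain ⟨d1', d2', d3'⟩ := hadd' (Psi hv P) (Psi hv Q) tP tQ hx'
      have hm : ∀ T : RatFunc k, T / (RatFunc.C v * r (xr P) - RatFunc.C v * r (xr Q)) =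
          (T / (r (xr P) - r (xr Q))) / RatFunc.C v := by
        intro T
        rw [← mul_sub, mul_comm, div_div]
      have ex : xr (Psi hv (P + Q)) = xr (Psi hv P + Psi hv Q) := by
        rw [(txy _).1, d2, d2', tPx, tPy, tQx, tQy, psi_ff hv, hm]
        simp only [map_sub, map_mul, map_div₀, map_pow, ← hr]
        generalize (r (yr P) - r (yr Q)) / (r (xr P) - r (xr Q)) = m
        field_simp
      apply ext h1 h' (tne _ d1).1 d1' ex
      rw [(txy _).2, d3, d3', ← ex, (txy (P + Q)).1, tPx, tPy, tQx, tQy, hm]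
      simp only [map_neg, map_sub, map_mul, map_div₀, map_add]
      generalize (r (yr P) - r (yr Q)) / (r (xr P) - r (xr Q)) = m
      field_simp
  · have e1 : ff a b * (1 : RatFunc k) ^ 2 = ev a b RatFunc.X := by
      rw [ff, ev]
      ring
    have e1' : ff (v ^ 2 * a) (v ^ 3 * b) * (1 : RatFunc k) ^ 2 =
        ev (v ^ 2 * a) (v ^ 3 * b) RatFunc.X := by
      rw [ff, ev]
      ring
    obtain ⟨i1, i2, i3⟩ := hmk _ _ e1
    obtain ⟨j1, j2, j3⟩ := hmk' _ _ e1'
    have e2 : idM a b = mkP a b RatFunc.X 1 := rfl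
    have e3 : idM (v ^ 2 * a) (v ^ 3 * b) = mkP (v ^ 2 * a) (v ^ 3 * b) RatFunc.X 1 := rfl
    rw [e2, e3]
    apply ext h1 h' (tne _ i1).1 j1
    · rw [(txy _).1, i2, j2, hr, psi_X, uu, map_inv₀, mul_inv_cancel_left₀ hv']
    · rw [(txy _).2, i3, j3, map_one]

end SCL_

open SCL_ in
/-- SCL: scaling of the model -/
theorem p_SCL (h1 : SSA.T_API) (h2 : SSA.T_RFC) (h3 : SSA.T_RFD) (_h4 : SSA.T_XPM) : T_SCL := by
  intro k _ a b v h hv c D α hD hdeg hcomp
  have hv' : RatFunc.C v ≠ (0 : RatFunc k) := (_root_.map_ne_zero _).2 hv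
  obtain ⟨txy, tadd, t0, tneg, tid⟩ := Psi_spec h1 h hv
  have tsub : ∀ P Q : MM a b, Psi hv (P - Q) = Psi hv P - Psi hv Q := by
    intro P Q
    rw [sub_eq_add_neg, tadd, tneg, sub_eq_add_neg]
  have tsmul : ∀ (n : ℕ) (P : MM a b), Psi hv (n • P) = n • Psi hv P := by
    intro n P
    induction n with
    | zero => rw [zero_nsmul, zero_nsmul, t0]
    | succ n ih => rw [succ_nsmul, succ_nsmul, tadd, ih]
  refine ⟨Psi hv α, ?_, ?_, ?_⟩
  · obtain ⟨-, -, dmul, -, -, -, -, dC, dX⟩ := h3 k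
    obtain ⟨-, -, -, -, -, -, -, -, -, -, -, hch, -⟩ := h2 k (uu v) (uu_ne hv)
    have e1 : ∀ g, rder (psi hv g) = psi hv (rder g) * RatFunc.C v⁻¹ := by
      intro g
      have e2 : psi hv g = rcomp g (uu v) := RFC_.Phi_eq _ _ _
      have e3 : psi hv (rder g) = rcomp (rder g) (uu v) := RFC_.Phi_eq _ _ _
      rw [e2, e3, hch, uu, dmul, dC, dX, zero_mul, zero_add, mul_one]
    have e4 : DD (Psi hv α) = psi hv (DD α) := by
      rw [DD, DD, (txy α).1, (txy α).2, dmul, dC, zero_mul, zero_add, e1, map_div₀, map_inv₀]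
      field_simp
    rw [e4, hD, psi_C]
  · obtain ⟨f1, f2, f3, f4, f5⟩ := frac hv (xr α)
    obtain ⟨n1, n2⟩ := natDegree_mk f1 f2 f3
    rw [(txy α).1, n1, n2, f4, f5]
    exact hdeg
  · intro x
    rw [← tid, ← tsmul, ← tadd, ← tsub, ← tsmul, (txy _).1, (txy _).1, (txy _).1, rcomp_scale,
      hcomp]

end SSW
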