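import Pool.Agent.SSW.Targets

/-!
# MP_d74fca_nt, SND: the second derivative of the Weierstrass function (helper76, for helper22)
-/

open Polynomial
open scoped UpperHalfPlane Topology

namespace SSW

namespace SND_

lemma countable_lattice (L : PeriodPair) : (L.lattice : Set ℂ).Countable := by
  have h : Countable L.lattice := (L.latticeEquivProd.toEquiv).countable_iff.mpr inferInstance
  exact Set.countable_coe_iff.mp h

lemma preconn (L : PeriodPair) : IsPreconnected ((L.lattice : Set ℂ)ᶜ) := by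
  have h : 1 < Module.rank ℝ ℂ := by
    rw [Complex.rank_real_complex]
    exact_mod_cast Nat.one_lt_two
  exact ((countable_lattice L).isPathConnected_compl_of_one_lt_rank h).isConnected.isPreconnected

lemma isOpenC (L : PeriodPair) : IsOpen ((L.lattice : Set ℂ)ᶜ) := L.isClosed_lattice.isOpen_compl

lemma hasDeriv1 (L : PeriodPair) (z : ℂ) (hz : z ∉ L.lattice) :
    HasDerivAt L.weierstrassP (L.derivWeierstrassP z) z := by
  have h := (L.analyticOnNhd_weierstrassP z hz).differentiableAt.hasDerivAt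
  rwa [L.deriv_weierstrassP] at h

lemma hasDeriv2 (L : PeriodPair) (z : ℂ) (hz : z ∉ L.lattice) :
    HasDerivAt L.derivWeierstrassP (deriv L.derivWeierstrassP z) z :=
  (L.analyticOnNhd_derivWeierstrassP z hz).differentiableAt.hasDerivAt

lemma prod_zero (L : PeriodPair) (z : ℂ) (hz : z ∉ L.lattice) :
    L.derivWeierstrassP z *
      (2 * deriv L.derivWeierstrassP z - 12 * L.weierstrassP z ^ 2 + L.g₂) = 0 := by
  have h1 := hasDeriv1 L z hz
  have h2 := hasDeriv2 L z hz
  have hA : HasDerivAt (fun w => L.derivWeierstrassP w ^ 2)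
      (2 * L.derivWeierstrassP z * deriv L.derivWeierstrassP z) z := by
    have h3 := h2.fun_pow 2
    simpa using h3
  have hB : HasDerivAt (fun w => 4 * L.weierstrassP w ^ 3 - L.g₂ * L.weierstrassP w - L.g₃)
      (4 * (3 * L.weierstrassP z ^ 2 * L.derivWeierstrassP z) -
        L.g₂ * L.derivWeierstrassP z) z := by
    have h3 := h1.fun_pow 3
    simpa using (((h3.const_mul 4).sub (h1.const_mul L.g₂)).sub_const L.g₃)
  have hE : (fun w => L.derivWeierstrassP w ^ 2) =ᶠ[𝓝 z]
      (fun w => 4 * L.weierstrassP w ^ 3 - L.g₂ * L.weierstrassP w - L.g₃) := by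
    filter_upwards [(isOpenC L).mem_nhds hz] with w hw
    exact L.derivWeierstrassP_sq w hw
  have hU := hA.unique (hB.congr_of_eventuallyEq hE)
  linear_combination hU

lemma not_zero (L : PeriodPair) : ¬ ∀ z ∈ (L.lattice : Set ℂ)ᶜ, L.derivWeierstrassP z = 0 := by
  intro h
  obtain ⟨a, ha⟩ := (isOpenC L).exists_is_const_of_deriv_eq_zero (preconn L)
    L.differentiableOn_weierstrassP (fun z hz => by
      rw [L.deriv_weierstrassP]
      exact h z hz)
  have h0 : (0 : ℂ) ∈ L.lattice := L.lattice.zero_mem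
  have hT := (tendsto_cobounded_iff_meromorphicOrderAt_neg (L.meromorphic_weierstrassP 0)).mpr
    (by rw [L.order_weierstrassP 0 h0]; decide)
  have hc : L.weierstrassP =ᶠ[𝓝[≠] 0] (fun _ => a) := by
    have h1 : ((L.lattice : Set ℂ) \ {0})ᶜ ∈ 𝓝 (0 : ℂ) := L.compl_lattice_sdiff_singleton_mem_nhds 0
    filter_upwards [mem_nhdsWithin_of_mem_nhds h1, self_mem_nhdsWithin] with w hw hw0
    apply ha
    intro hwL
    exact hw ⟨hwL, hw0⟩
  have hT2 : Filter.Tendsto (fun _ : ℂ => a) (𝓝[≠] (0 : ℂ)) (Bornology.cobounded ℂ) :=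
    hT.congr' hc
  have hT3 : Filter.Tendsto (fun _ : ℂ => a) (𝓝[≠] (0 : ℂ)) (𝓝 a) := tendsto_const_nhds
  have hd : Disjoint (𝓝 a) (Bornology.cobounded ℂ) := Metric.disjoint_nhds_cobounded a
  exact hT3.not_tendsto hd hT2

end SND_

theorem p_SND : T_SND := by
  intro L z hz
  refine ⟨SND_.hasDeriv1 L z hz, ?_⟩
  have hF := L.analyticOnNhd_derivWeierstrassP
  have hG : AnalyticOnNhd ℂ (fun w => 2 * deriv L.derivWeierstrassP w -
      12 * L.weierstrassP w ^ 2 + L.g₂) (L.lattice : Set ℂ)ᶜ := by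
    intro w hw
    have h1 := (hF w hw).deriv
    have h2 := L.analyticOnNhd_weierstrassP w hw
    exact ((analyticAt_const.mul h1).sub (analyticAt_const.mul (h2.pow 2))).add analyticAt_const
  rcases AnalyticOnNhd.eq_zero_or_eq_zero_of_mul_eq_zero hF hG
    (fun w hw => SND_.prod_zero L w hw) (SND_.preconn L) with h | h
  · exact absurd h (SND_.not_zero L)
  · have h3 := h z hz
    have h4 := SND_.hasDeriv2 L z hz
    have h5 : deriv L.derivWeierstrassP z = 6 * L.weierstrassP z ^ 2 - L.g₂ / 2 := by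
      linear_combination h3 / 2
    rwa [h5] at h4

end SSW
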