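import Pool.Agent.SSW.Targets

/-!
# MP_d74fca_nt: even elliptic functions with poles in the lattice are polynomials in `℘`
-/

open Polynomial Filter Topology

namespace SSW

namespace EVE_

/-- translates -/
theorem order_add (L : PeriodPair) (G : ℂ → ℂ) (hp : ∀ z, ∀ l ∈ L.lattice, G (z + l) = G z)
    (z l : ℂ) (hl : l ∈ L.lattice) : meromorphicOrderAt G (z + l) = meromorphicOrderAt G z := by
  have h := meromorphicOrderAt_comp_add_const_eq_meromorphicOrderAt (c := l) (f := G) (x := z)
  have h1 : (G ∘ fun z => z + l) = G := by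
    funext w
    exact hp w l hl
  rw [h1] at h
  exact h.symm

/-- no poles: constant -/
theorem const_of_nonneg (L : PeriodPair) (G : ℂ → ℂ) (hG : Meromorphic G)
    (ho : ∀ z, 0 ≤ meromorphicOrderAt G z) (hp : ∀ z, ∀ l ∈ L.lattice, G (z + l) = G z) :
    ∃ c : ℂ, ∀ z, ∀ᶠ w in 𝓝[≠] z, G w = c := by
  have hGo : MeromorphicOn G Set.univ := fun z _ => hG z
  set H : ℂ → ℂ := toMeromorphicNFOn G Set.univ with hH
  have hnf : MeromorphicNFOn H Set.univ := meromorphicNFOn_toMeromorphicNFOn G Set.univ
  have heq : ∀ z, H =ᶠ[𝓝[≠] z] G := fun z =>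
    hGo.toMeromorphicNFOn_eq_self_on_nhdsNE (Set.mem_univ z)
  have han : ∀ z, AnalyticAt ℂ H z := by
    intro z
    rw [← (hnf (Set.mem_univ z)).meromorphicOrderAt_nonneg_iff_analyticAt,
      meromorphicOrderAt_toMeromorphicNFOn hGo (Set.mem_univ z)]
    exact ho z
  have hdiff : Differentiable ℂ H := fun z => (han z).differentiableAt
  have hper : ∀ z l, l ∈ L.lattice → H (z + l) = H z := by
    intro z l hl
    have h1 : Tendsto (fun w => H (w + l)) (𝓝[≠] z) (𝓝 (H (z + l))) := by
      have : Continuous fun w => H (w + l) := hdiff.continuous.comp (continuous_id.add_const l)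
      exact (this.tendsto z).mono_left nhdsWithin_le_nhds
    have h2 : Tendsto H (𝓝[≠] z) (𝓝 (H z)) :=
      (hdiff.continuous.tendsto z).mono_left nhdsWithin_le_nhds
    have h3 : (fun w => H (w + l)) =ᶠ[𝓝[≠] z] H := by
      have h4 : Tendsto (fun w : ℂ => w + l) (𝓝[≠] z) (𝓝[≠] (z + l)) := by
        refine tendsto_nhdsWithin_of_tendsto_nhds_of_eventually_within _ ?_ ?_
        · exact ((continuous_id.add_const l).tendsto z).mono_left nhdsWithin_le_nhds
        · filter_upwards [self_mem_nhdsWithin] with w hw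
          simpa using hw
      filter_upwards [h4.eventually (heq (z + l)), heq z] with w hw hw'
      rw [hw, hw', hp w l hl]
    exact tendsto_nhds_unique_of_eventuallyEq h1 h2 h3
  have hc : ∀ z, H z = H 0 := fun z =>
    hdiff.apply_eq_apply_of_bounded (IsZLattice.isCompact_range_of_periodic L.lattice H
      hdiff.continuous hper).isBounded z 0
  refine ⟨H 0, fun z => ?_⟩
  filter_upwards [heq z] with w hw
  rw [← hw, hc w]

/-- induction on the order of the pole at `0` -/
theorem main (L : PeriodPair) (m : ℕ) : ∀ G : ℂ → ℂ, Meromorphic G →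
    (∀ z, z ∉ L.lattice → 0 ≤ meromorphicOrderAt G z) →
    (∀ z, ∀ l ∈ L.lattice, G (z + l) = G z) → (∀ z, G (-z) = G z) →
    (((-(m : ℤ) : ℤ) : WithTop ℤ) ≤ meromorphicOrderAt G 0) →
    ∃ P : ℂ[X], ∀ z, ∀ᶠ w in 𝓝[≠] z, G w = P.eval (L.weierstrassP w) := by
  induction m with
  | zero =>
    intro G hG ho hp _ h0
    obtain ⟨c, hc⟩ := const_of_nonneg L G hG (fun z => by
      by_cases hz : z ∈ L.lattice
      · have h1 := order_add L G hp 0 z hz
        rw [zero_add] at h1
        rw [h1]
        simpa using h0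
      · exact ho z hz) hp
    exact ⟨C c, fun z => by simpa using hc z⟩
  | succ m ih =>
    intro G hG ho hp he h0
    by_cases h1 : (((-(m : ℤ) : ℤ) : WithTop ℤ) ≤ meromorphicOrderAt G 0)
    · exact ih G hG ho hp he h1
    -- the order is exactly `-(m+1)`
    have h2 : meromorphicOrderAt G 0 = ((-((m + 1 : ℕ) : ℤ) : ℤ) : WithTop ℤ) := by
      cases hv : meromorphicOrderAt G 0 with
      | top => rw [hv] at h1; exact absurd le_top h1
      | coe n =>
        rw [hv] at h0 h1
        rw [WithTop.coe_le_coe] at h0 h1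
        congr 1
        push_cast at h0 h1 ⊢
        omega
    obtain ⟨g, hga, hg0, hgG⟩ := (meromorphicOrderAt_eq_int_iff (hG 0)).1 h2
    obtain ⟨h, hha, hh0, hhP⟩ := (meromorphicOrderAt_eq_int_iff (L.meromorphic_weierstrassP 0)).1
      (show meromorphicOrderAt L.weierstrassP 0 = ((-2 : ℤ) : WithTop ℤ) by
        rw [L.order_weierstrassP 0 (zero_mem _)]; norm_num)
    -- parity
    have hneg : Tendsto (fun w : ℂ => -w) (𝓝[≠] 0) (𝓝[≠] 0) := by
      refine tendsto_nhdsWithin_of_tendsto_nhds_of_eventually_within _ ?_ ?_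
      · have := (continuous_neg (G := ℂ)).tendsto 0
        rw [neg_zero] at this
        exact this.mono_left nhdsWithin_le_nhds
      · filter_upwards [self_mem_nhdsWithin] with w hw
        simpa using hw
    have hpar : Even (m + 1) := by
      by_contra hodd
      rw [Nat.not_even_iff_odd] at hodd
      have h3 : (fun w => -g (-w)) =ᶠ[𝓝[≠] 0] g := by
        filter_upwards [hneg.eventually hgG, hgG, self_mem_nhdsWithin] with w hw hw' hw0
        have hw0 : w ≠ 0 := hw0
        rw [he w, hw'] at hw
        rw [sub_zero, sub_zero, smul_eq_mul, smul_eq_mul] at hw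
        rw [zpow_neg, zpow_natCast, zpow_neg, zpow_natCast, hodd.neg_pow, inv_neg] at hw
        have h4 : (w ^ (m + 1))⁻¹ ≠ 0 := inv_ne_zero (pow_ne_zero _ hw0)
        have h5 : (w ^ (m + 1))⁻¹ * g w = (w ^ (m + 1))⁻¹ * (-g (-w)) := by
          rw [hw]; ring
        exact (mul_left_cancel₀ h4 h5).symm
      have h4 : Tendsto (fun w => -g (-w)) (𝓝[≠] 0) (𝓝 (-g 0)) := by
        have h5 : Tendsto g (𝓝[≠] 0) (𝓝 (g 0)) :=
          (hga.continuousAt.tendsto).mono_left nhdsWithin_le_nhds
        exact (h5.comp hneg).neg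
      have h5 : Tendsto g (𝓝[≠] 0) (𝓝 (g 0)) :=
        (hga.continuousAt.tendsto).mono_left nhdsWithin_le_nhds
      have h6 := tendsto_nhds_unique_of_eventuallyEq h4 h5 h3
      exact hg0 (by
        have : (2 : ℂ) * g 0 = 0 := by linear_combination -h6
        simpa using this)
    obtain ⟨k, hk⟩ := hpar
    set c : ℂ := g 0 / h 0 ^ k with hc
    have hP := L.meromorphic_weierstrassP
    have hG' : Meromorphic (fun z => G z - c * L.weierstrassP z ^ k) := by
      intro z
      have h3 := hG z
      have h4 := hP z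
      fun_prop
    have key : (fun z => G z - c * L.weierstrassP z ^ k) =ᶠ[𝓝[≠] 0]
        ((fun z : ℂ => z ^ (-((m + 1 : ℕ) : ℤ))) * fun z => g z - c * h z ^ k) := by
      filter_upwards [hgG, hhP] with w hw hw'
      rw [Pi.mul_apply, hw, hw', sub_zero, smul_eq_mul, smul_eq_mul, mul_pow]
      have h3 : (w ^ (-2 : ℤ)) ^ k = w ^ (-((m + 1 : ℕ) : ℤ)) := by
        rw [← zpow_natCast, ← zpow_mul]
        congr 1
        rw [hk]
        push_cast
        ring
      rw [h3]
      ring
    have hq : AnalyticAt ℂ (fun z => g z - c * h z ^ k) 0 := by fun_prop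
    have hqo : ((1 : ℤ) : WithTop ℤ) ≤ meromorphicOrderAt (fun z => g z - c * h z ^ k) 0 := by
      have h3 : 0 < meromorphicOrderAt (fun z => g z - c * h z ^ k) 0 := by
        rw [← tendsto_zero_iff_meromorphicOrderAt_pos hq.meromorphicAt]
        have h4 := (hq.continuousAt.tendsto).mono_left (nhdsWithin_le_nhds (s := {0}ᶜ))
        have h5 : g 0 - c * h 0 ^ k = 0 := by
          rw [hc, div_mul_cancel₀ _ (pow_ne_zero _ hh0), sub_self]
        rw [h5] at h4
        exact h4
      cases hv : meromorphicOrderAt (fun z => g z - c * h z ^ k) 0 with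
      | top => exact le_top
      | coe n =>
        rw [hv] at h3
        rw [WithTop.coe_le_coe]
        have : (0 : ℤ) < n := by exact_mod_cast h3
        omega
    have hzp : meromorphicOrderAt (fun z : ℂ => z ^ (-((m + 1 : ℕ) : ℤ))) 0 =
        ((-((m + 1 : ℕ) : ℤ) : ℤ) : WithTop ℤ) := by
      have h3 := meromorphicOrderAt_zpow_id_sub_const (𝕜 := ℂ) (x := 0)
        (n := -((m + 1 : ℕ) : ℤ))
      rw [← h3]
      congr 1
      funext z
      simp
    have h0' : (((-(m : ℤ) : ℤ) : WithTop ℤ) ≤
        meromorphicOrderAt (fun z => G z - c * L.weierstrassP z ^ k) 0) := by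
      rw [meromorphicOrderAt_congr key, meromorphicOrderAt_mul (by fun_prop) hq.meromorphicAt, hzp]
      calc ((-(m : ℤ) : ℤ) : WithTop ℤ)
          = ((-((m + 1 : ℕ) : ℤ) : ℤ) : WithTop ℤ) + ((1 : ℤ) : WithTop ℤ) := by
            rw [← WithTop.coe_add]
            congr 1
            push_cast
            ring
        _ ≤ _ := by gcongr
    obtain ⟨P, hPP⟩ := ih (fun z => G z - c * L.weierstrassP z ^ k) hG' (fun z hz => by
        have h3 : AnalyticAt ℂ L.weierstrassP z := L.analyticOnNhd_weierstrassP z hz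
        have h4 : AnalyticAt ℂ (fun z => -(c * L.weierstrassP z ^ k)) z := by fun_prop
        have h5 : (fun z => G z - c * L.weierstrassP z ^ k) =
            G + fun z => -(c * L.weierstrassP z ^ k) := by
          funext w
          simp [sub_eq_add_neg]
        rw [h5]
        exact (le_min (ho z hz) h4.meromorphicOrderAt_nonneg).trans
          (meromorphicOrderAt_add (hG z) h4.meromorphicAt))
      (fun z l hl => by
        have h3 : L.weierstrassP (z + l) = L.weierstrassP z := L.weierstrassP_add_coe z ⟨l, hl⟩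
        simp only [hp z l hl, h3])
      (fun z => by simp only [he z, L.weierstrassP_neg z]) h0'
    refine ⟨P + C c * X ^ k, fun z => ?_⟩
    filter_upwards [hPP z] with w hw
    simp only [eval_add, eval_mul, eval_C, eval_pow, eval_X, ← hw]
    ring

end EVE_

theorem p_EVE : T_EVE := by
  intro L G hG ho hp he
  have hm : ∃ m : ℕ, (((-(m : ℤ) : ℤ) : WithTop ℤ) ≤ meromorphicOrderAt G 0) := by
    cases hv : meromorphicOrderAt G 0 with
    | top => exact ⟨0, le_top⟩
    | coe n =>
      refine ⟨n.natAbs, ?_⟩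
      rw [WithTop.coe_le_coe]
      omega
  obtain ⟨m, hm⟩ := hm
  obtain ⟨P, hP⟩ := EVE_.main L m G hG ho hp he hm
  exact ⟨P, fun z _ => hP z⟩

end SSW
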